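import Pool.Agent.helper19.FM.Stmts

set_option autoImplicit false

namespace Pool.Agent.FM

open Finset Real Pool.Agent.AT Pool.Agent.OM Pool.Agent.helper85.FC Pool.Agent.FR

/-! ## The theorem of Motzkin and Straus -/

open Classical in
/-- the weighted number of edges -/
noncomputable def LGD_ff (R : ℕ → ℕ → Prop) (w : ℕ → ℝ) (V : Finset ℕ) : ℝ :=
  ∑ s ∈ V, ∑ t ∈ V, if R s t then w s * w t else 0

open Classical in
theorem LGD_step (R : ℕ → ℕ → Prop) (hsym : ∀ s t, R s t → R t s) (w : ℕ → ℝ) (V : Finset ℕ) (hw : ∀ s ∈ V, 0 ≤ w s)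
    (c : ℝ) (hc : ∀ v ∈ V, LGD_ff R w (V.filter (R v)) ≤ c * (∑ s ∈ V.filter (R v), w s) ^ 2) :
    ∃ D : ℝ, LGD_ff R w V ≤ c * D ^ 2 + 2 * (∑ s ∈ V, w s - D) * D := by
  rcases V.eq_empty_or_nonempty with rfl | hV
  · refine ⟨0, ?_⟩
    simp [LGD_ff]
  set d : ℕ → ℝ := fun s => ∑ t ∈ V, if R s t then w t else 0 with hd
  obtain ⟨v, hv, hmax⟩ := Finset.exists_max_image V d hV
  set N := V.filter (R v) with hN
  set A := V.filter (fun s => ¬ R v s) with hA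
  set D : ℝ := ∑ s ∈ N, w s with hD
  have hdv : d v = D := by
    rw [hd, hD, hN, Finset.sum_filter]
  have hwN : ∀ s ∈ N, 0 ≤ w s := fun s hs => hw s (Finset.mem_of_mem_filter s hs)
  have hwA : ∀ s ∈ A, 0 ≤ w s := fun s hs => hw s (Finset.mem_of_mem_filter s hs)
  refine ⟨D, ?_⟩
  have hsplit : ∀ f : ℕ → ℝ, ∑ s ∈ V, f s = ∑ s ∈ N, f s + ∑ s ∈ A, f s := fun f =>
    (Finset.sum_filter_add_sum_filter_not V (R v) f).symm
  have hff : LGD_ff R w V = ∑ s ∈ V, w s * d s := by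
    unfold LGD_ff
    refine Finset.sum_congr rfl fun s _ => ?_
    rw [hd, Finset.mul_sum]
    refine Finset.sum_congr rfl fun t _ => ?_
    split_ifs <;> simp
  have hcross : ∑ s ∈ N, ∑ t ∈ A, (if R s t then w s * w t else 0) ≤ ∑ t ∈ A, w t * d t := by
    rw [Finset.sum_comm]
    refine Finset.sum_le_sum fun t ht => ?_
    rw [hd, Finset.mul_sum]
    have h1 : ∑ s ∈ N, (if R s t then w s * w t else 0) ≤ ∑ s ∈ V, (if R t s then w s * w t else 0) := by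
      refine le_trans (le_of_eq (Finset.sum_congr rfl fun s _ => ?_)) (Finset.sum_le_sum_of_subset_of_nonneg
        (Finset.filter_subset _ _) fun s hs _ => ?_)
      · by_cases h : R s t
        · rw [if_pos h, if_pos (hsym _ _ h)]
        · rw [if_neg h, if_neg (fun h' => h (hsym _ _ h'))]
      · split_ifs
        · exact mul_nonneg (hw s hs) (hwA t ht)
        · exact le_rfl
    refine h1.trans (le_of_eq (Finset.sum_congr rfl fun s _ => ?_))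
    split_ifs
    · exact mul_comm _ _
    · simp
  have hN1 : ∑ s ∈ N, w s * d s = LGD_ff R w N + ∑ s ∈ N, ∑ t ∈ A, (if R s t then w s * w t else 0) := by
    unfold LGD_ff
    rw [← Finset.sum_add_distrib]
    refine Finset.sum_congr rfl fun s _ => ?_
    rw [← hsplit, hd, Finset.mul_sum]
    refine Finset.sum_congr rfl fun t _ => ?_
    split_ifs <;> simp
  have hAD : ∑ t ∈ A, w t * d t ≤ (∑ s ∈ V, w s - D) * D := by
    have h1 : ∑ s ∈ V, w s - D = ∑ s ∈ A, w s := by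
      rw [hsplit w, hD]
      ring
    rw [h1, Finset.sum_mul]
    refine Finset.sum_le_sum fun t ht => ?_
    refine mul_le_mul_of_nonneg_left ?_ (hwA t ht)
    rw [← hdv]
    exact hmax t (Finset.mem_of_mem_filter t ht)
  rw [hff, hsplit, hN1]
  have := hc v hv
  linarith

open Classical in
theorem LGD_K3 (R : ℕ → ℕ → Prop) (hsym : ∀ s t, R s t → R t s) (w : ℕ → ℝ) (V : Finset ℕ) (hw : ∀ s ∈ V, 0 ≤ w s)
    (hfree : ∀ s ∈ V, ∀ t ∈ V, ∀ u ∈ V, R s t → R s u → R t u → False) :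
    LGD_ff R w V ≤ 1 / 2 * (∑ s ∈ V, w s) ^ 2 := by
  obtain ⟨D, hD⟩ := LGD_step R hsym w V hw 0 (by
    intro v hv
    rw [zero_mul]
    refine le_of_eq ?_
    unfold LGD_ff
    refine Finset.sum_eq_zero fun s hs => Finset.sum_eq_zero fun t ht => ?_
    rw [Finset.mem_filter] at hs ht
    rw [if_neg fun h => hfree v hv s hs.1 t ht.1 hs.2 ht.2 h])
  nlinarith [sq_nonneg (∑ s ∈ V, w s - 2 * D)]

open Classical in
theorem LGD_K4 (R : ℕ → ℕ → Prop) (hsym : ∀ s t, R s t → R t s) (w : ℕ → ℝ) (V : Finset ℕ) (hw : ∀ s ∈ V, 0 ≤ w s)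
    (hfree : ∀ s ∈ V, ∀ t ∈ V, ∀ u ∈ V, ∀ v ∈ V, R s t → R s u → R s v → R t u → R t v → R u v → False) :
    LGD_ff R w V ≤ 2 / 3 * (∑ s ∈ V, w s) ^ 2 := by
  obtain ⟨D, hD⟩ := LGD_step R hsym w V hw (1 / 2) (by
    intro v hv
    refine LGD_K3 R hsym w _ (fun s hs => hw s (Finset.mem_of_mem_filter s hs)) ?_
    intro s hs t ht u hu h1 h2 h3
    rw [Finset.mem_filter] at hs ht hu
    exact hfree v hv s hs.1 t ht.1 u hu.1 hs.2 ht.2 hu.2 h1 h2 h3)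
  nlinarith [sq_nonneg (∑ s ∈ V, w s - 3 / 2 * D)]

/-! ## Sums -/

theorem LGD_zeta (G N : ℕ) (hG : 1 ≤ G) (hGN : G ≤ N) :
    ∑ g ∈ Icc 1 N, 1 / (g : ℝ) ^ 2 ≤ ∑ g ∈ Icc 1 G, 1 / (g : ℝ) ^ 2 + 1 / (G : ℝ) := by
  have h1 : Icc 1 N = Icc 1 G ∪ Ioc G N := by
    ext x
    simp only [Finset.mem_union, Finset.mem_Icc, Finset.mem_Ioc]
    omega
  have h2 : Disjoint (Icc 1 G) (Ioc G N) := by
    rw [Finset.disjoint_left]
    intro x hx hx'
    rw [Finset.mem_Icc] at hx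
    rw [Finset.mem_Ioc] at hx'
    omega
  rw [h1, Finset.sum_union h2]
  have h3 := sum_Ioc_inv_sq_le_sub (α := ℝ) (k := G) (n := N) (by omega) hGN
  have h4 : ∑ g ∈ Ioc G N, 1 / (g : ℝ) ^ 2 ≤ 1 / (G : ℝ) := by
    have h5 : (0 : ℝ) ≤ (N : ℝ)⁻¹ := by positivity
    have h6 : ∑ g ∈ Ioc G N, 1 / (g : ℝ) ^ 2 = ∑ g ∈ Ioc G N, ((g : ℝ) ^ 2)⁻¹ := by
      refine Finset.sum_congr rfl fun g _ => ?_
      rw [one_div]
    rw [h6, one_div]
    linarith
  linarith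

theorem LGD_zeta1 (N : ℕ) : ∑ g ∈ Icc 1 N, 1 / (g : ℝ) ^ 2 ≤ 2 := by
  rcases Nat.eq_zero_or_pos N with rfl | hN
  · simp
  · have h := LGD_zeta 1 N le_rfl hN
    simp only [Finset.Icc_self, Finset.sum_singleton, Nat.cast_one, one_pow, div_one] at h
    linarith

theorem LGD_zeta0 (N : ℕ) (hN : 1 ≤ N) : 1 ≤ ∑ g ∈ Icc 1 N, 1 / (g : ℝ) ^ 2 := by
  have h := Finset.single_le_sum (f := fun g : ℕ => 1 / (g : ℝ) ^ 2) (s := Icc 1 N) (fun g _ => by positivity)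
    (Finset.mem_Icc.2 ⟨le_rfl, hN⟩)
  simpa using h

theorem LGD_harm (N G : ℕ) (hN : 1 ≤ N) (hG : 1 ≤ G) :
    ∑ s ∈ Icc 1 (N * G), 1 / (s : ℝ) ≤ ∑ s ∈ Icc 1 N, 1 / (s : ℝ) + G := by
  induction G with
  | zero => omega
  | succ G ih =>
    rcases Nat.eq_zero_or_pos G with rfl | hG0
    · simp
    · have h1 : Icc 1 (N * (G + 1)) = Icc 1 (N * G) ∪ Ioc (N * G) (N * (G + 1)) := by
        ext x
        simp only [Finset.mem_union, Finset.mem_Icc, Finset.mem_Ioc, Nat.mul_add]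
        omega
      have h2 : Disjoint (Icc 1 (N * G)) (Ioc (N * G) (N * (G + 1))) := by
        rw [Finset.disjoint_left]
        intro x hx hx'
        rw [Finset.mem_Icc] at hx
        rw [Finset.mem_Ioc] at hx'
        omega
      rw [h1, Finset.sum_union h2]
      have h3 : ∑ s ∈ Ioc (N * G) (N * (G + 1)), 1 / (s : ℝ) ≤ 1 := by
        have h4 : ∀ s ∈ Ioc (N * G) (N * (G + 1)), 1 / (s : ℝ) ≤ 1 / (N : ℝ) := by
          intro s hs
          rw [Finset.mem_Ioc] at hs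
          have hN0 : (0 : ℝ) < N := by exact_mod_cast hN
          refine one_div_le_one_div_of_le hN0 ?_
          have : N ≤ s := le_trans (Nat.le_mul_of_pos_right N hG0) hs.1.le
          exact_mod_cast this
        refine (Finset.sum_le_card_nsmul _ _ _ h4).trans ?_
        rw [Nat.card_Ioc, Nat.mul_add, Nat.mul_one, Nat.add_sub_cancel_left, nsmul_eq_mul]
        rw [mul_one_div, div_self]
        have hN0 : (0 : ℝ) < N := by exact_mod_cast hN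
        exact hN0.ne'
      have h5 := ih hG0
      push_cast
      linarith

theorem LGD_sq (N : ℕ) : ∑ p ∈ Icc 1 N ×ˢ Icc 1 N, 1 / ((p.1 : ℝ) * p.2) = (∑ s ∈ Icc 1 N, 1 / (s : ℝ)) ^ 2 := by
  rw [pow_two, Finset.sum_mul_sum, ← Finset.sum_product']
  refine Finset.sum_congr rfl fun p _ => ?_
  rw [one_div_mul_one_div]

/-- the reduced pair and the gcd determine the pair -/
theorem LGD_rp (s t : ℕ) : s = s.gcd t * (rp s t).1 ∧ t = s.gcd t * (rp s t).2 := by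
  unfold rp
  exact ⟨(Nat.mul_div_cancel' (Nat.gcd_dvd_left s t)).symm, (Nat.mul_div_cancel' (Nat.gcd_dvd_right s t)).symm⟩

theorem LGD_val (s t : ℕ) : 1 / ((s : ℝ) * t) = 1 / ((s.gcd t : ℕ) : ℝ) ^ 2 * (1 / (((rp s t).1 : ℝ) * (rp s t).2)) := by
  obtain ⟨h1, h2⟩ := LGD_rp s t
  have e : (s : ℝ) * t = ((s.gcd t : ℕ) : ℝ) ^ 2 * (((rp s t).1 : ℝ) * (rp s t).2) := by
    have h1' : (s : ℝ) = (s.gcd t : ℕ) * (rp s t).1 := by exact_mod_cast h1
    have h2' : (t : ℝ) = (s.gcd t : ℕ) * (rp s t).2 := by exact_mod_cast h2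
    calc (s : ℝ) * t = ((s.gcd t : ℕ) * (rp s t).1) * ((s.gcd t : ℕ) * (rp s t).2) := by rw [← h1', ← h2']
      _ = _ := by ring
  rw [e, one_div_mul_one_div]

theorem LGD_pos (N s t : ℕ) (hs : s ∈ Icc 1 N) (ht : t ∈ Icc 1 N) : s.gcd t ∈ Icc 1 N ∧
    (rp s t).1 ∈ Icc 1 N ∧ (rp s t).2 ∈ Icc 1 N ∧ Nat.Coprime (rp s t).1 (rp s t).2 := by
  rw [Finset.mem_Icc] at *
  have hg : 0 < s.gcd t := Nat.gcd_pos_of_pos_left t (by omega)
  refine ⟨⟨hg, (Nat.gcd_le_left t (by omega)).trans hs.2⟩, ?_, ?_, Nat.coprime_div_gcd_div_gcd hg⟩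
  · rw [Finset.mem_Icc]
    unfold rp
    exact ⟨Nat.div_pos (Nat.gcd_le_left t (by omega)) hg, (Nat.div_le_self _ _).trans hs.2⟩
  · rw [Finset.mem_Icc]
    unfold rp
    exact ⟨Nat.div_pos (Nat.gcd_le_right s (by omega)) hg, (Nat.div_le_self _ _).trans ht.2⟩

open Classical in
/-- pairs with a given ratio -/
theorem LGD_one (N : ℕ) (e : ℕ × ℕ) :
    ∑ p ∈ Icc 1 N ×ˢ Icc 1 N with rp p.1 p.2 = e, 1 / ((p.1 : ℝ) * p.2) ≤ 2 := by
  have h1 : ∀ p ∈ (Icc 1 N ×ˢ Icc 1 N).filter (fun p : ℕ × ℕ => rp p.1 p.2 = e),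
      1 / ((p.1 : ℝ) * p.2) ≤ 1 / ((p.1.gcd p.2 : ℕ) : ℝ) ^ 2 := by
    intro p hp
    rw [Finset.mem_filter, Finset.mem_product] at hp
    obtain ⟨-, h2, h3, -⟩ := LGD_pos N p.1 p.2 hp.1.1 hp.1.2
    rw [LGD_val p.1 p.2]
    refine mul_le_of_le_one_right (by positivity) ?_
    rw [Finset.mem_Icc] at h2 h3
    have h4 : (1 : ℝ) ≤ (rp p.1 p.2).1 := by exact_mod_cast h2.1
    have h5 : (1 : ℝ) ≤ (rp p.1 p.2).2 := by exact_mod_cast h3.1
    rw [div_le_one (by positivity)]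
    nlinarith
  refine (Finset.sum_le_sum h1).trans ?_
  obtain ⟨I, hI⟩ : ∃ I : Finset ℕ, I = ((Icc 1 N ×ˢ Icc 1 N).filter (fun p : ℕ × ℕ => rp p.1 p.2 = e)).image
      (fun p : ℕ × ℕ => p.1.gcd p.2) := ⟨_, rfl⟩
  have h2 : ∑ p ∈ (Icc 1 N ×ˢ Icc 1 N).filter (fun p : ℕ × ℕ => rp p.1 p.2 = e), 1 / ((p.1.gcd p.2 : ℕ) : ℝ) ^ 2 =
      ∑ g ∈ I, 1 / (g : ℝ) ^ 2 := by
    rw [hI, Finset.sum_image]
    intro p hp q hq hpq
    rw [Finset.mem_coe, Finset.mem_filter] at hp hq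
    obtain ⟨a1, a2⟩ := LGD_rp p.1 p.2
    obtain ⟨b1, b2⟩ := LGD_rp q.1 q.2
    have hpq' : p.1.gcd p.2 = q.1.gcd q.2 := hpq
    rw [hp.2, hpq'] at a1 a2
    rw [hq.2] at b1 b2
    exact Prod.ext (a1.trans b1.symm) (a2.trans b2.symm)
  rw [h2]
  refine le_trans (Finset.sum_le_sum_of_subset_of_nonneg ?_ fun g _ _ => by positivity) (LGD_zeta1 N)
  intro g hg
  rw [hI, Finset.mem_image] at hg
  obtain ⟨p, hp, rfl⟩ := hg
  rw [Finset.mem_filter, Finset.mem_product] at hp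
  exact (LGD_pos N p.1 p.2 hp.1.1 hp.1.2).1

open Classical in
/-- sorting by the reduced pair and the gcd -/
theorem LGD_sort (ε : ℝ) (N : ℕ) :
    ∑ p ∈ Icc 1 N ×ˢ Icc 1 N with GQM ε p.1 p.2, 1 / ((p.1 : ℝ) * p.2) ≤
      (∑ g ∈ Icc 1 N, 1 / (g : ℝ) ^ 2) *
        ∑ p ∈ Icc 1 N ×ˢ Icc 1 N with Nat.Coprime p.1 p.2 ∧ GoodM ε p.1 p.2, 1 / ((p.1 : ℝ) * p.2) := by
  rw [Finset.sum_mul_sum, ← Finset.sum_product']
  set P := (Icc 1 N ×ˢ Icc 1 N).filter (fun p : ℕ × ℕ => GQM ε p.1 p.2) with hP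
  set φ : ℕ × ℕ → ℕ × (ℕ × ℕ) := fun p => (p.1.gcd p.2, rp p.1 p.2) with hφ
  set H : ℕ × (ℕ × ℕ) → ℝ := fun q => 1 / (q.1 : ℝ) ^ 2 * (1 / ((q.2.1 : ℝ) * q.2.2)) with hH
  have h1 : ∑ p ∈ P, 1 / ((p.1 : ℝ) * p.2) = ∑ q ∈ P.image φ, H q := by
    rw [Finset.sum_image]
    · exact Finset.sum_congr rfl fun p _ => LGD_val p.1 p.2
    · intro p _ q _ hpq
      have e1 : p.1.gcd p.2 = q.1.gcd q.2 := congrArg Prod.fst hpq
      have e2 : rp p.1 p.2 = rp q.1 q.2 := congrArg Prod.snd hpq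
      obtain ⟨a1, a2⟩ := LGD_rp p.1 p.2
      obtain ⟨b1, b2⟩ := LGD_rp q.1 q.2
      rw [e1, e2] at a1 a2
      exact Prod.ext (a1.trans b1.symm) (a2.trans b2.symm)
  rw [h1]
  refine Finset.sum_le_sum_of_subset_of_nonneg ?_ fun q _ _ => by positivity
  intro q hq
  rw [Finset.mem_image] at hq
  obtain ⟨p, hp, rfl⟩ := hq
  rw [hP, Finset.mem_filter, Finset.mem_product] at hp
  obtain ⟨c1, c2, c3, c4⟩ := LGD_pos N p.1 p.2 hp.1.1 hp.1.2
  rw [Finset.mem_product, Finset.mem_filter, Finset.mem_product]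
  exact ⟨c1, ⟨c2, c3⟩, c4, hp.2⟩

/-- the upper bound for the coprime pairs -/
theorem LGD_upper (N G : ℕ) (hN : 1 ≤ N) (hG : 1 ≤ G) :
    (∑ g ∈ Icc 1 G, 1 / (g : ℝ) ^ 2) * ∑ p ∈ Icc 1 N ×ˢ Icc 1 N with Nat.Coprime p.1 p.2, 1 / ((p.1 : ℝ) * p.2) ≤
      (∑ s ∈ Icc 1 N, 1 / (s : ℝ) + G) ^ 2 := by
  rw [Finset.sum_mul_sum, ← Finset.sum_product']
  set Q := (Icc 1 N ×ˢ Icc 1 N).filter (fun p : ℕ × ℕ => Nat.Coprime p.1 p.2) with hQ
  set φ : ℕ × (ℕ × ℕ) → ℕ × ℕ := fun q => (q.1 * q.2.1, q.1 * q.2.2) with hφ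
  have h1 : ∑ q ∈ Icc 1 G ×ˢ Q, 1 / (q.1 : ℝ) ^ 2 * (1 / ((q.2.1 : ℝ) * q.2.2)) =
      ∑ p ∈ (Icc 1 G ×ˢ Q).image φ, 1 / ((p.1 : ℝ) * p.2) := by
    rw [Finset.sum_image]
    · refine Finset.sum_congr rfl fun q _ => ?_
      rw [one_div_mul_one_div]
      congr 1
      change (q.1 : ℝ) ^ 2 * ((q.2.1 : ℝ) * q.2.2) = ((q.1 * q.2.1 : ℕ) : ℝ) * ((q.1 * q.2.2 : ℕ) : ℝ)
      push_cast
      ring
    · intro q hq q' hq' hqq
      rw [Finset.mem_coe, Finset.mem_product, Finset.mem_filter, Finset.mem_Icc] at hq hq'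
      have e1 : q.1 * q.2.1 = q'.1 * q'.2.1 := congrArg Prod.fst hqq
      have e2 : q.1 * q.2.2 = q'.1 * q'.2.2 := congrArg Prod.snd hqq
      have g1 : (q.1 * q.2.1).gcd (q.1 * q.2.2) = q.1 := by
        rw [Nat.gcd_mul_left, hq.2.2.gcd_eq_one, mul_one]
      have g2 : (q'.1 * q'.2.1).gcd (q'.1 * q'.2.2) = q'.1 := by
        rw [Nat.gcd_mul_left, hq'.2.2.gcd_eq_one, mul_one]
      have e0 : q.1 = q'.1 := by rw [← g1, ← g2, e1, e2]
      rw [e0] at e1 e2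
      have hpos : 0 < q'.1 := hq'.1.1
      exact Prod.ext e0 (Prod.ext (Nat.eq_of_mul_eq_mul_left hpos e1) (Nat.eq_of_mul_eq_mul_left hpos e2))
  rw [h1]
  have h2 : ∑ p ∈ (Icc 1 G ×ˢ Q).image φ, 1 / ((p.1 : ℝ) * p.2) ≤
      ∑ p ∈ Icc 1 (N * G) ×ˢ Icc 1 (N * G), 1 / ((p.1 : ℝ) * p.2) := by
    refine Finset.sum_le_sum_of_subset_of_nonneg ?_ fun q _ _ => by positivity
    intro p hp
    rw [Finset.mem_image] at hp
    obtain ⟨q, hq, rfl⟩ := hp
    rw [Finset.mem_product, Finset.mem_filter, Finset.mem_product, Finset.mem_Icc, Finset.mem_Icc, Finset.mem_Icc] at hq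
    rw [Finset.mem_product, Finset.mem_Icc, Finset.mem_Icc]
    obtain ⟨⟨a1, a2⟩, ⟨⟨b1, b2⟩, b3, b4⟩, -⟩ := hq
    refine ⟨⟨Nat.mul_pos a1 b1, ?_⟩, Nat.mul_pos a1 b3, ?_⟩
    · rw [mul_comm N G]
      exact Nat.mul_le_mul a2 b2
    · rw [mul_comm N G]
      exact Nat.mul_le_mul a2 b4
  refine h2.trans ?_
  rw [LGD_sq]
  have h3 : 0 ≤ ∑ s ∈ Icc 1 (N * G), 1 / (s : ℝ) := Finset.sum_nonneg fun s _ => by positivity
  exact pow_le_pow_left₀ h3 (LGD_harm N G hN hG) 2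

open Classical in
/-- the lower bound -/
theorem LGD_lower (hGQS : GQMS_stmt) (ε : ℝ) (E : Finset (ℕ × ℕ)) (hE : FourM ε E Set.univ) (N : ℕ) :
    1 / 3 * (∑ s ∈ Icc 1 N, 1 / (s : ℝ)) ^ 2 - (2 + 4 * #E) ≤
      ∑ p ∈ Icc 1 N ×ˢ Icc 1 N with GQM ε p.1 p.2, 1 / ((p.1 : ℝ) * p.2) := by
  set R : ℕ → ℕ → Prop := fun s t => s ≠ t ∧ ¬ GQM ε s t ∧ rp s t ∉ E ∧ rp t s ∉ E with hR
  have hsym : ∀ s t, R s t → R t s := fun s t h => ⟨h.1.symm, fun h' => h.2.1 (hGQS.1 ε t s h'), h.2.2.2, h.2.2.1⟩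
  have hK := LGD_K4 R hsym (fun s => 1 / (s : ℝ)) (Icc 1 N) (fun s _ => by positivity) (by
    intro s hs t ht u hu v hv h1 h2 h3 h4 h5 h6
    rw [Finset.mem_Icc] at hs ht hu hv
    set f : Fin 4 → ℕ := ![s, t, u, v] with hf
    have hRf : ∀ i j : Fin 4, i ≠ j → R (f i) (f j) := by
      intro i j hij
      fin_cases i <;> fin_cases j <;> first
        | exact absurd rfl hij
        | exact h1
        | exact h2
        | exact h3
        | exact h4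
        | exact h5
        | exact h6
        | exact hsym _ _ h1
        | exact hsym _ _ h2
        | exact hsym _ _ h3
        | exact hsym _ _ h4
        | exact hsym _ _ h5
        | exact hsym _ _ h6
    obtain ⟨i, j, hij, hgq⟩ := hE f (by
      intro i
      refine ⟨?_, Set.mem_univ _⟩
      fin_cases i
      · exact hs.1
      · exact ht.1
      · exact hu.1
      · exact hv.1) (by
      intro i j hij
      by_contra hne
      exact (hRf i j hne).1 hij) (fun i j hij => (hRf i j hij).2.2.1)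
    exact (hRf i j hij).2.1 hgq)
  set L : ℝ := ∑ s ∈ Icc 1 N, 1 / (s : ℝ) with hL
  set F : ℕ × ℕ → ℝ := fun p => 1 / ((p.1 : ℝ) * p.2) with hF
  have hF0 : ∀ p, 0 ≤ F p := fun p => by positivity
  set V := Icc 1 N ×ˢ Icc 1 N with hV
  have hff : LGD_ff R (fun s => 1 / (s : ℝ)) (Icc 1 N) = ∑ p ∈ V with R p.1 p.2, F p := by
    unfold LGD_ff
    rw [← Finset.sum_product', Finset.sum_filter]
    refine Finset.sum_congr rfl fun p _ => ?_
    rw [hF]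
    simp only [one_div_mul_one_div]
  have htot : ∑ p ∈ V, F p = L ^ 2 := LGD_sq N
  -- the diagonal
  have hdiag : ∑ p ∈ V with p.1 = p.2, F p ≤ 2 := by
    have h1 : ∀ p ∈ V.filter (fun p : ℕ × ℕ => p.1 = p.2), p ∈ V.filter (fun p : ℕ × ℕ => rp p.1 p.2 = (1, 1)) := by
      intro p hp
      rw [Finset.mem_filter] at hp ⊢
      refine ⟨hp.1, ?_⟩
      have h2 : 0 < p.2 := by
        have := hp.1
        rw [hV, Finset.mem_product, Finset.mem_Icc, Finset.mem_Icc] at this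
        omega
      unfold rp
      rw [hp.2, Nat.gcd_self, Nat.div_self h2]
    exact (Finset.sum_le_sum_of_subset_of_nonneg h1 fun p _ _ => hF0 p).trans (LGD_one N (1, 1))
  have hE1 : ∑ p ∈ V with rp p.1 p.2 ∈ E, F p ≤ 2 * #E := by
    have h1 : V.filter (fun p : ℕ × ℕ => rp p.1 p.2 ∈ E) ⊆ E.biUnion fun e => V.filter (fun p : ℕ × ℕ => rp p.1 p.2 = e) := by
      intro p hp
      rw [Finset.mem_filter] at hp
      rw [Finset.mem_biUnion]
      exact ⟨_, hp.2, Finset.mem_filter.2 ⟨hp.1, rfl⟩⟩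
    refine (Finset.sum_le_sum_of_subset_of_nonneg h1 fun p _ _ => hF0 p).trans ?_
    rw [Finset.sum_biUnion (by
      intro e _ e' _ hee
      rw [Function.onFun, Finset.disjoint_left]
      intro p hp hp'
      rw [Finset.mem_filter] at hp hp'
      exact hee (hp.2.symm.trans hp'.2))]
    refine (Finset.sum_le_card_nsmul _ _ 2 fun e _ => LGD_one N e).trans ?_
    rw [nsmul_eq_mul, mul_comm]
  have hE2 : ∑ p ∈ V with rp p.2 p.1 ∈ E, F p ≤ 2 * #E := by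
    have h1 : ∑ p ∈ V with rp p.2 p.1 ∈ E, F p = ∑ p ∈ V with rp p.1 p.2 ∈ E, F p := by
      refine Finset.sum_nbij' Prod.swap Prod.swap ?_ ?_ (fun p _ => Prod.swap_swap p) (fun p _ => Prod.swap_swap p) ?_
      · intro p hp
        rw [Finset.mem_filter, hV, Finset.mem_product] at hp ⊢
        exact ⟨⟨hp.1.2, hp.1.1⟩, hp.2⟩
      · intro p hp
        rw [Finset.mem_filter, hV, Finset.mem_product] at hp ⊢
        exact ⟨⟨hp.1.2, hp.1.1⟩, hp.2⟩
      · intro p _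
        rw [hF]
        simp only [Prod.fst_swap, Prod.snd_swap]
        rw [mul_comm]
    rw [h1]
    exact hE1
  have hcover : ∑ p ∈ V, F p ≤ ∑ p ∈ V with GQM ε p.1 p.2, F p + ∑ p ∈ V with R p.1 p.2, F p +
      ∑ p ∈ V with p.1 = p.2, F p + ∑ p ∈ V with rp p.1 p.2 ∈ E, F p + ∑ p ∈ V with rp p.2 p.1 ∈ E, F p := by
    simp only [Finset.sum_filter]
    rw [← Finset.sum_add_distrib, ← Finset.sum_add_distrib, ← Finset.sum_add_distrib, ← Finset.sum_add_distrib]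
    refine Finset.sum_le_sum fun p _ => ?_
    have h0 := hF0 p
    by_cases a1 : GQM ε p.1 p.2
    · rw [if_pos a1]
      have : ∀ q : Prop, ∀ _ : Decidable q, 0 ≤ (if q then F p else 0) := fun q _ => by split_ifs <;> simp [h0]
      have b1 := this (R p.1 p.2) inferInstance
      have b2 := this (p.1 = p.2) inferInstance
      have b3 := this (rp p.1 p.2 ∈ E) inferInstance
      have b4 := this (rp p.2 p.1 ∈ E) inferInstance
      linarith
    · by_cases a2 : R p.1 p.2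
      · rw [if_pos a2]
        have : ∀ q : Prop, ∀ _ : Decidable q, 0 ≤ (if q then F p else 0) := fun q _ => by split_ifs <;> simp [h0]
        have b1 := this (GQM ε p.1 p.2) inferInstance
        have b2 := this (p.1 = p.2) inferInstance
        have b3 := this (rp p.1 p.2 ∈ E) inferInstance
        have b4 := this (rp p.2 p.1 ∈ E) inferInstance
        linarith
      · have : ∀ q : Prop, ∀ _ : Decidable q, 0 ≤ (if q then F p else 0) := fun q _ => by split_ifs <;> simp [h0]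
        have b0 := this (GQM ε p.1 p.2) inferInstance
        have b1 := this (R p.1 p.2) inferInstance
        have b2 := this (p.1 = p.2) inferInstance
        have b3 := this (rp p.1 p.2 ∈ E) inferInstance
        have b4 := this (rp p.2 p.1 ∈ E) inferInstance
        by_cases a3 : p.1 = p.2
        · rw [if_pos a3] at b2 ⊢
          linarith
        · by_cases a4 : rp p.1 p.2 ∈ E
          · rw [if_pos a4] at b3 ⊢
            linarith
          · by_cases a5 : rp p.2 p.1 ∈ E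
            · rw [if_pos a5] at b4 ⊢
              linarith
            · exact absurd ⟨a3, a1, a4, a5⟩ a2
  rw [hff] at hK
  rw [htot] at hcover
  linarith

theorem LGD (hGLB : GLM_stmt) (hGQS : GQMS_stmt) : LGM_stmt := by
  classical
  intro ε δ hε hδ
  obtain ⟨E, hE⟩ := hGLB ε hε
  by_cases hδ3 : 1 / 3 - δ ≤ 0
  · refine ⟨0, fun N _ => ?_⟩
    refine le_trans (mul_nonpos_of_nonpos_of_nonneg hδ3 (Finset.sum_nonneg fun p _ => by positivity)) ?_
    exact Finset.sum_nonneg fun p _ => by positivity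
  push Not at hδ3
  -- the choice of G
  obtain ⟨G, hG⟩ := exists_nat_gt (1 / δ)
  have hδi : 0 < 1 / δ := by positivity
  have hGr : (0 : ℝ) < G := hδi.trans hG
  have hG1 : 1 ≤ G := by
    have : 0 < G := by exact_mod_cast hGr
    omega
  have hG2 : 1 / (G : ℝ) ≤ δ := by
    rw [div_le_iff₀ hGr]
    rw [div_lt_iff₀ hδ] at hG
    linarith
  -- the harmonic sum tends to infinity
  have hharm : Filter.Tendsto (fun N : ℕ => ∑ s ∈ Icc 1 N, 1 / (s : ℝ)) Filter.atTop Filter.atTop := by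
    have h1 := Real.tendsto_sum_range_one_div_nat_succ_atTop
    refine h1.congr fun N => ?_
    induction N with
    | zero => simp
    | succ N ih =>
      rw [Finset.sum_range_succ, Finset.sum_Icc_succ_top (by omega), ih]
      push_cast
      rfl
  set C : ℝ := 2 + 4 * #E with hC
  have hC0 : 0 ≤ C := by positivity
  obtain ⟨N₁, hN₁⟩ := Filter.eventually_atTop.1 (hharm.eventually_ge_atTop (max 1 ((2 * G + (G : ℝ) ^ 2 + 3 * C) / δ)))
  refine ⟨max N₁ G, fun N hN => ?_⟩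
  have hNG : G ≤ N := (le_max_right _ _).trans hN
  have hN1 : 1 ≤ N := hG1.trans hNG
  have hL := hN₁ N ((le_max_left _ _).trans hN)
  set L : ℝ := ∑ s ∈ Icc 1 N, 1 / (s : ℝ) with hLdef
  have hL1 : 1 ≤ L := (le_max_left _ _).trans hL
  have hL2 : (2 * G + (G : ℝ) ^ 2 + 3 * C) / δ ≤ L := (le_max_right _ _).trans hL
  rw [div_le_iff₀ hδ] at hL2
  set Cp : ℝ := ∑ p ∈ Icc 1 N ×ˢ Icc 1 N with Nat.Coprime p.1 p.2, 1 / ((p.1 : ℝ) * p.2) with hCp
  set Gd : ℝ := ∑ p ∈ Icc 1 N ×ˢ Icc 1 N with Nat.Coprime p.1 p.2 ∧ GoodM ε p.1 p.2, 1 / ((p.1 : ℝ) * p.2) with hGd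
  have hCp0 : 0 ≤ Cp := Finset.sum_nonneg fun p _ => by positivity
  have hu := LGD_upper N G hN1 hG1
  have hl := (LGD_lower hGQS ε E hE N).trans (LGD_sort ε N)
  rw [← hLdef, ← hCp] at hu
  rw [← hLdef, ← hGd] at hl
  have hz := LGD_zeta G N hG1 hNG
  have hz0 := LGD_zeta0 G hG1
  have hz1 := LGD_zeta0 N hN1
  set zN : ℝ := ∑ g ∈ Icc 1 N, 1 / (g : ℝ) ^ 2 with hzN
  set zG : ℝ := ∑ g ∈ Icc 1 G, 1 / (g : ℝ) ^ 2 with hzG
  -- zN ≤ (1 + δ) zG
  have hzz : zN ≤ (1 + δ) * zG := by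
    have : δ ≤ δ * zG := le_mul_of_one_le_right hδ.le hz0
    linarith
  -- (1/3 - δ) zN Cp ≤ (1/3 - δ) (1 + δ) (L + G)^2 ≤ L^2/3 - C ≤ zN Gd
  have h1 : (1 / 3 - δ) * (zN * Cp) ≤ (1 / 3 - δ) * ((1 + δ) * (L + G) ^ 2) := by
    refine mul_le_mul_of_nonneg_left ?_ hδ3.le
    calc zN * Cp ≤ ((1 + δ) * zG) * Cp := mul_le_mul_of_nonneg_right hzz hCp0
      _ = (1 + δ) * (zG * Cp) := by ring
      _ ≤ (1 + δ) * (L + G) ^ 2 := mul_le_mul_of_nonneg_left hu (by linarith)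
  have h2 : (1 / 3 - δ) * ((1 + δ) * (L + G) ^ 2) ≤ 1 / 3 * L ^ 2 - C := by
    have h3 : (1 / 3 - δ) * (1 + δ) ≤ 1 / 3 - 2 / 3 * δ := by nlinarith
    have h4 : (1 / 3 - δ) * ((1 + δ) * (L + G) ^ 2) ≤ (1 / 3 - 2 / 3 * δ) * (L + G) ^ 2 := by
      rw [← mul_assoc]
      exact mul_le_mul_of_nonneg_right h3 (by positivity)
    have h5 : (1 / 3 - 2 / 3 * δ) * (L + G) ^ 2 ≤ (1 / 3) * L ^ 2 - 2 / 3 * δ * L ^ 2 + 1 / 3 * (2 * G * L + G ^ 2) := by
      have h6 : 0 ≤ 2 / 3 * δ * (2 * L * G + (G : ℝ) ^ 2) := by positivity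
      nlinarith
    have h7 : (2 * G + (G : ℝ) ^ 2 + 3 * C) * L ≤ (L * δ) * L := mul_le_mul_of_nonneg_right hL2 (by linarith)
    have h8 : (G : ℝ) ^ 2 ≤ (G : ℝ) ^ 2 * L := le_mul_of_one_le_right (by positivity) hL1
    have h9 : C ≤ C * L := le_mul_of_one_le_right hC0 hL1
    have h10 : 0 ≤ (L * δ) * L := by positivity
    nlinarith
  have h3 : zN * ((1 / 3 - δ) * Cp) ≤ zN * Gd := by
    calc zN * ((1 / 3 - δ) * Cp) = (1 / 3 - δ) * (zN * Cp) := by ring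
      _ ≤ _ := h1
      _ ≤ _ := h2
      _ ≤ zN * Gd := hl
  exact le_of_mul_le_mul_left h3 (by linarith)

end Pool.Agent.FM
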