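import Pool.Agent.helper19.FM.Stmts

set_option autoImplicit false

/-! Row fr:TRI (MP_bf63dc_nt): one of the first three powers. -/

namespace Pool.Agent.FM

open Finset Real Pool.Agent.AT Pool.Agent.OM Pool.Agent.helper85.FC Pool.Agent.FR

theorem TRI_rp {g u v : ℕ} (hg : 0 < g) (h : Nat.Coprime u v) : rp (g * u) (g * v) = (u, v) := by
  unfold rp
  rw [Nat.gcd_mul_left, h.gcd_eq_one, mul_one, Nat.mul_div_cancel_left _ hg, Nat.mul_div_cancel_left _ hg]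

theorem TRI_pair (a b i j : ℕ) (ha : 0 < a) (hb : 0 < b) (hij : i < j) (hj : j ≤ 3) :
    ∃ g, 0 < g ∧ a ^ i * b ^ (3 - i) = g * b ^ (j - i) ∧ a ^ j * b ^ (3 - j) = g * a ^ (j - i) := by
  refine ⟨a ^ i * b ^ (3 - j), by positivity, ?_, ?_⟩
  · have h : 3 - i = (3 - j) + (j - i) := by omega
    rw [h, pow_add, mul_assoc]
  · have h : j = i + (j - i) := by omega
    calc a ^ j * b ^ (3 - j) = a ^ (i + (j - i)) * b ^ (3 - j) := by rw [← h]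
      _ = _ := by rw [pow_add]; ring

theorem TRI_two (a b : ℕ) (ha : 0 < a) (hb : 0 < b) (i j : Fin 4) (hij : i ≠ j) :
    ∃ g e x y : ℕ, 0 < g ∧ 1 ≤ e ∧ e ≤ 3 ∧ ((x = a ∧ y = b) ∨ (x = b ∧ y = a)) ∧
      a ^ (i : ℕ) * b ^ (3 - (i : ℕ)) = g * x ^ e ∧ a ^ (j : ℕ) * b ^ (3 - (j : ℕ)) = g * y ^ e := by
  have hne : (i : ℕ) ≠ j := fun h => hij (Fin.ext h)
  have hi := i.isLt
  have hj := j.isLt
  rcases lt_or_gt_of_ne hne with h | h
  · obtain ⟨g, hg, h1, h2⟩ := TRI_pair a b i j ha hb h (by omega)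
    exact ⟨g, j - i, b, a, hg, by omega, by omega, Or.inr ⟨rfl, rfl⟩, h1, h2⟩
  · obtain ⟨g, hg, h1, h2⟩ := TRI_pair a b j i ha hb h (by omega)
    exact ⟨g, i - j, a, b, hg, by omega, by omega, Or.inl ⟨rfl, rfl⟩, h2, h1⟩

/-- the number of the `(a, b)` with `(a^e, b^e)` in a finite set -/
theorem TRI_cnt (e : ℕ) (he : 1 ≤ e) (E S : Finset (ℕ × ℕ)) (g : ℕ × ℕ → ℕ × ℕ) (hg : Function.Injective g)
    (h : ∀ p ∈ S, g (p.1 ^ e, p.2 ^ e) ∈ E) : #S ≤ #E := by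
  refine Finset.card_le_card_of_injOn (fun p => g (p.1 ^ e, p.2 ^ e)) (fun p hp => h p hp) ?_
  intro p _ p' _ hpp
  have h1 := hg hpp
  have h2 := Prod.mk.inj h1
  exact Prod.ext (Nat.pow_left_injective (by omega : e ≠ 0) h2.1) (Nat.pow_left_injective (by omega : e ≠ 0) h2.2)

theorem TRIQ (hGSY : GSM_stmt) (ε : ℝ) (E : Finset (ℕ × ℕ)) (hE : FourM ε E Set.univ) : ∃ E' : Finset (ℕ × ℕ), #E' ≤ 6 * #E + 1 ∧
    ∀ a b : ℕ, 1 ≤ a → 1 ≤ b → Nat.Coprime a b → (a, b) ∉ E' →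
      GoodM ε a b ∨ GoodM ε (a ^ 2) (b ^ 2) ∨ GoodM ε (a ^ 3) (b ^ 3) := by
  classical
  obtain ⟨B, hB⟩ : ∃ B : ℕ, B = (∑ r ∈ E, (r.1 + r.2)) + 1 := ⟨_, rfl⟩
  have hEB : ∀ r ∈ E, r.1 ≤ B ∧ r.2 ≤ B := by
    intro r hr
    have h1 : r.1 + r.2 ≤ ∑ r ∈ E, (r.1 + r.2) := Finset.single_le_sum (f := fun r : ℕ × ℕ => r.1 + r.2)
      (fun _ _ => Nat.zero_le _) hr
    constructor <;> omega
  obtain ⟨S, hS⟩ : ∃ S : ℕ → Finset (ℕ × ℕ), S = fun e => {p ∈ Icc 0 B ×ˢ Icc 0 B | (p.1 ^ e, p.2 ^ e) ∈ E} := ⟨_, rfl⟩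
  obtain ⟨S', hS'⟩ : ∃ S' : ℕ → Finset (ℕ × ℕ), S' = fun e => {p ∈ Icc 0 B ×ˢ Icc 0 B | (p.2 ^ e, p.1 ^ e) ∈ E} := ⟨_, rfl⟩
  have hSc : ∀ e, 1 ≤ e → #(S e) ≤ #E := by
    intro e he
    refine TRI_cnt e he E (S e) id Function.injective_id fun p hp => ?_
    rw [hS, mem_filter] at hp
    exact hp.2
  have hSc' : ∀ e, 1 ≤ e → #(S' e) ≤ #E := by
    intro e he
    refine TRI_cnt e he E (S' e) Prod.swap Prod.swap_injective fun p hp => ?_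
    rw [hS', mem_filter] at hp
    exact hp.2
  obtain ⟨E', hE'⟩ : ∃ E' : Finset (ℕ × ℕ), E' = (Icc 1 3).biUnion (fun e => S e ∪ S' e) ∪ {(1, 1)} := ⟨_, rfl⟩
  refine ⟨E', ?_, fun a b ha hb hab hnot => ?_⟩
  · rw [hE']
    refine (card_union_le _ _).trans ?_
    rw [card_singleton]
    have h1 : #((Icc 1 3).biUnion (fun e => S e ∪ S' e)) ≤ ∑ e ∈ Icc 1 3, (2 * #E) := by
      refine card_biUnion_le.trans (sum_le_sum fun e he => ?_)
      have h2 := hSc e (mem_Icc.1 he).1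
      have h3 := hSc' e (mem_Icc.1 he).1
      have h4 := card_union_le (S e) (S' e)
      omega
    rw [sum_const, Nat.card_Icc, smul_eq_mul] at h1
    omega
  have hno : ∀ e, 1 ≤ e → e ≤ 3 → (a ^ e, b ^ e) ∉ E ∧ (b ^ e, a ^ e) ∉ E := by
    intro e he he3
    constructor
    · intro h
      obtain ⟨h3, h4⟩ := hEB _ h
      apply hnot
      rw [hE', mem_union, mem_biUnion]
      refine Or.inl ⟨e, mem_Icc.2 ⟨he, he3⟩, ?_⟩
      rw [mem_union]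
      refine Or.inl ?_
      rw [hS, mem_filter, mem_product, mem_Icc, mem_Icc]
      exact ⟨⟨⟨Nat.zero_le _, (Nat.le_self_pow (by omega) a).trans h3⟩, ⟨Nat.zero_le _, (Nat.le_self_pow (by omega) b).trans h4⟩⟩, h⟩
    · intro h
      obtain ⟨h3, h4⟩ := hEB _ h
      apply hnot
      rw [hE', mem_union, mem_biUnion]
      refine Or.inl ⟨e, mem_Icc.2 ⟨he, he3⟩, ?_⟩
      rw [mem_union]
      refine Or.inr ?_
      rw [hS', mem_filter, mem_product, mem_Icc, mem_Icc]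
      exact ⟨⟨⟨Nat.zero_le _, (Nat.le_self_pow (by omega) a).trans h4⟩, ⟨Nat.zero_le _, (Nat.le_self_pow (by omega) b).trans h3⟩⟩, h⟩
  have hne : a ≠ b := by
    intro h
    rw [← h, Nat.coprime_self] at hab
    apply hnot
    rw [hE', mem_union, mem_singleton, ← h, hab]
    exact Or.inr rfl
  have hinj : Function.Injective (fun i : Fin 4 => a ^ (i : ℕ) * b ^ (3 - (i : ℕ))) := by
    intro i j hij
    by_contra hne'
    obtain ⟨g, e, x, y, hg, he, -, hxy, h1, h2⟩ := TRI_two a b ha hb i j hne'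
    have h3 : g * x ^ e = g * y ^ e := by
      rw [← h1, ← h2]
      exact hij
    have h4 : x ^ e = y ^ e := Nat.eq_of_mul_eq_mul_left hg h3
    have h5 : x = y := Nat.pow_left_injective (by omega : e ≠ 0) h4
    rcases hxy with ⟨h6, h7⟩ | ⟨h6, h7⟩
    · exact hne (by rw [← h6, ← h7, h5])
    · exact hne (by rw [← h6, ← h7, h5])
  have hrp : ∀ i j : Fin 4, i ≠ j → ∃ e x y : ℕ, 1 ≤ e ∧ e ≤ 3 ∧ ((x = a ∧ y = b) ∨ (x = b ∧ y = a)) ∧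
      rp (a ^ (i : ℕ) * b ^ (3 - (i : ℕ))) (a ^ (j : ℕ) * b ^ (3 - (j : ℕ))) = (x ^ e, y ^ e) := by
    intro i j hij
    obtain ⟨g, e, x, y, hg, he, he3, hxy, h1, h2⟩ := TRI_two a b ha hb i j hij
    refine ⟨e, x, y, he, he3, hxy, ?_⟩
    rw [h1, h2]
    refine TRI_rp hg (Nat.Coprime.pow _ _ ?_)
    rcases hxy with ⟨h6, h7⟩ | ⟨h6, h7⟩
    · rw [h6, h7]; exact hab
    · rw [h6, h7]; exact hab.symm
  obtain ⟨i, j, hij, hG⟩ := hE (fun i : Fin 4 => a ^ (i : ℕ) * b ^ (3 - (i : ℕ)))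
    (fun i => ⟨by positivity, Set.mem_univ _⟩) hinj (fun i j hij hmem => by
      obtain ⟨e, x, y, he, he3, hxy, h1⟩ := hrp i j hij
      have h2 : rp (a ^ (i : ℕ) * b ^ (3 - (i : ℕ))) (a ^ (j : ℕ) * b ^ (3 - (j : ℕ))) ∈ E := hmem
      rw [h1] at h2
      rcases hxy with ⟨h7, h8⟩ | ⟨h7, h8⟩
      · rw [h7, h8] at h2
        exact (hno e he he3).1 h2
      · rw [h7, h8] at h2
        exact (hno e he he3).2 h2)
  obtain ⟨e, x, y, he, he3, hxy, h1⟩ := hrp i j hij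
  have h2 : GoodM ε (rp (a ^ (i : ℕ) * b ^ (3 - (i : ℕ))) (a ^ (j : ℕ) * b ^ (3 - (j : ℕ)))).1
      (rp (a ^ (i : ℕ) * b ^ (3 - (i : ℕ))) (a ^ (j : ℕ) * b ^ (3 - (j : ℕ)))).2 := hG
  rw [h1] at h2
  have h3 : GoodM ε (a ^ e) (b ^ e) := by
    rcases hxy with ⟨h7, h8⟩ | ⟨h7, h8⟩
    · rw [h7, h8] at h2
      exact h2
    · rw [h7, h8] at h2
      exact hGSY ε _ _ h2
  have h4 : e = 1 ∨ e = 2 ∨ e = 3 := by omega
  rcases h4 with h4 | h4 | h4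
  · rw [h4, pow_one, pow_one] at h3
    exact Or.inl h3
  · rw [h4] at h3
    exact Or.inr (Or.inl h3)
  · rw [h4] at h3
    exact Or.inr (Or.inr h3)

end Pool.Agent.FM
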