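import Pool.Agent.helper19.FM.THR
import Pool.Agent.helper19.FM.CNT
import Pool.Agent.helper19.FM.LGD
import Pool.Agent.helper19.FM.POW
import Pool.Agent.helper19.FM.TRI
import Pool.Agent.helper19.FM.SIX
import Pool.Agent.helper38.AT.All
import Pool.Agent.helper72.FR.KBD
import Pool.Agent.helper43.FR.CSY
import Pool.Agent.helper78.FR.ERR
import Pool.Agent.helper49.FR.MAI
import Pool.Agent.helper25.FR.PRJ
import Pool.Agent.helper48.FR.COR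
import Pool.Agent.helper29.FR.BES
import Pool.Agent.helper67.FR.EXC
import Pool.Agent.helper54.FR.FOL
import Pool.Agent.helper2.FR.FOK
import Pool.Agent.helper30.FR.MOD
import Pool.Agent.helper71.EP.MXC

/-!
# Project FM (MP_bf63dc_nt): assembly
-/

set_option autoImplicit false

namespace Pool.Agent.FM

open Finset Real Pool.Agent.AT Pool.Agent.OM Pool.Agent.helper85.FC Pool.Agent.FR

/-- the bound for the number of exceptional ratios -/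
theorem Asm_C (ε : ℝ) (hε : 0 < ε) (hε1 : ε ≤ 1) : ∃ C : ℕ, 2 ^ 76 / (ε * (1 / 10000000)) ^ 18 ≤ (C : ℝ) ∧
    18 * (C : ℝ) + 3 ≤ 10 ^ 151 / ε ^ 18 := by
  obtain ⟨z, hz⟩ : ∃ z : ℝ, z = (2 : ℝ) ^ 76 / (ε * (1 / 10000000)) ^ 18 := ⟨_, rfl⟩
  have hz0 : 0 ≤ z := by rw [hz]; positivity
  rw [← hz]
  refine ⟨⌈z⌉₊, Nat.le_ceil _, ?_⟩
  have h1 : ((⌈z⌉₊ : ℕ) : ℝ) < z + 1 := Nat.ceil_lt_add_one hz0
  obtain ⟨w, hw⟩ : ∃ w : ℝ, w = 1 / ε ^ 18 := ⟨_, rfl⟩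
  have h2 : z = (2 ^ 76 * 10000000 ^ 18) * w := by
    rw [hz, hw, mul_pow]
    field_simp
  have h3 : (1 : ℝ) ≤ w := by
    rw [hw, le_div_iff₀ (by positivity), one_mul]
    exact pow_le_one₀ hε.le hε1
  have h4 : (10 : ℝ) ^ 151 / ε ^ 18 = 10 ^ 151 * w := by rw [hw]; ring
  rw [h4]
  have h5 : 18 * ((⌈z⌉₊ : ℕ) : ℝ) + 3 ≤ 18 * (2 ^ 76 * 10000000 ^ 18 * w + 1) + 3 := by linarith
  refine h5.trans ?_
  have h6 : 18 * (2 ^ 76 * 10000000 ^ 18 * w + 1) + 3 = (18 * (2 ^ 76 * 10000000 ^ 18)) * w + 21 * 1 := by ring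
  rw [h6]
  have h7 : (18 * (2 ^ 76 * 10000000 ^ 18)) * w + 21 * 1 ≤ (18 * (2 ^ 76 * 10000000 ^ 18) + 21) * w := by linarith
  refine h7.trans ?_
  have h8 : (18 * (2 ^ 76 * 10000000 ^ 18) + 21 : ℝ) ≤ 10 ^ 151 := by norm_num
  exact mul_le_mul_of_nonneg_right h8 (by linarith)

/-- THE MAIN THEOREM: one finite set of ratios -/
theorem main (hSPE : SPE_stmt) (hORT : Pool.Agent.FR.ORT_stmt) (ε : ℝ) (C : ℕ) (hε : 0 < ε) (hε1 : ε ≤ 1)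
    (hC : 2 ^ 76 / (ε * (1 / 10000000)) ^ 18 ≤ (C : ℝ)) :
    ∀ F : Finset ℕ, (∀ s ∈ F, 0 < s) → ∃ E : Finset (ℕ × ℕ), #E ≤ C ∧ FourM ε E (F : Set ℕ) :=
  KFRM ε C (LAMM KBD hSPE (COR CSY ERR MAI PRJ) (EXC hORT BES) FOL FOK MOD Q_all PRT ε (1 / 10000000) C hε (by norm_num)
    (by linarith) hC)

end Pool.Agent.FM
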