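import Pool.Agent.helper19.FM.Asm
import Pool.Agent.helper19.FR.SPE
import Pool.Agent.helper22.FR.ORT

/-!
# Project FM (MP_bf63dc_nt): more than a quarter of any `k` integers are pairwise good; infinite sets
-/

set_option autoImplicit false

namespace Pool.Agent.FM

open Finset Real Pool.Agent.AT Pool.Agent.OM Pool.Agent.helper85.FC Pool.Agent.FR

/-- more than a quarter of any `k` elements of `F` with ratios outside `E` are pairwise good -/
def CliK (ε : ℝ) (k : ℕ) (E : Finset (ℕ × ℕ)) (F : Set ℕ) : Prop := ∀ s : Fin k → ℕ, (∀ i, 0 < s i ∧ s i ∈ F) →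
  Function.Injective s → (∀ i j, i ≠ j → rp (s i) (s j) ∉ E) →
  ∃ I : Finset (Fin k), k < 4 * #I ∧ ∀ i ∈ I, ∀ j ∈ I, i ≠ j → GQM ε (s i) (s j)

theorem Clique_mean_add {T : Type} [Fintype T] (f g : T → ℝ) : mean (fun x => f x + g x) = mean f + mean g := by
  unfold mean
  rw [Finset.sum_add_distrib, add_div]

theorem Clique_mean_const {T : Type} [Fintype T] [Nonempty T] (c : ℝ) : mean (fun _ : T => c) = c := by
  unfold mean
  rw [Finset.sum_const, Finset.card_univ, nsmul_eq_mul]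
  have h0 : (Fintype.card T : ℝ) ≠ 0 := by exact_mod_cast Fintype.card_ne_zero
  field_simp

/-- the multilinear function of the random rounding -/
def Phi {k : ℕ} (P : Finset (Fin k × Fin k)) (A : Fin k → ℝ) : ℝ := ∑ i, A i - ∑ z ∈ P, A z.1 * A z.2

theorem Phi_affine {k : ℕ} (P : Finset (Fin k × Fin k)) (hP : ∀ z ∈ P, z.1 ≠ z.2) (A : Fin k → ℝ) (i : Fin k) :
    Phi P A = A i * Phi P (Function.update A i 1) + (1 - A i) * Phi P (Function.update A i 0) := by
  have h1 : ∀ j, A j = A i * Function.update A i 1 j + (1 - A i) * Function.update A i 0 j := by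
    intro j
    by_cases hj : j = i
    · rw [hj, Function.update_self, Function.update_self]
      ring
    · rw [Function.update_of_ne hj, Function.update_of_ne hj]
      ring
  have h2 : ∀ z ∈ P, A z.1 * A z.2 = A i * (Function.update A i 1 z.1 * Function.update A i 1 z.2) +
      (1 - A i) * (Function.update A i 0 z.1 * Function.update A i 0 z.2) := by
    intro z hz
    by_cases h3 : z.1 = i
    · have h4 : z.2 ≠ i := fun h => hP z hz (h3.trans h.symm)
      rw [h3, Function.update_self, Function.update_self, Function.update_of_ne h4, Function.update_of_ne h4]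
      ring
    · by_cases h4 : z.2 = i
      · rw [h4, Function.update_self, Function.update_self, Function.update_of_ne h3, Function.update_of_ne h3]
        ring
      · rw [Function.update_of_ne h3, Function.update_of_ne h3, Function.update_of_ne h4, Function.update_of_ne h4]
        ring
  have e1 : ∑ j, A j = A i * ∑ j, Function.update A i 1 j + (1 - A i) * ∑ j, Function.update A i 0 j := by
    rw [Finset.mul_sum, Finset.mul_sum, ← Finset.sum_add_distrib]
    exact Finset.sum_congr rfl fun j _ => h1 j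
  have e2 : ∑ z ∈ P, A z.1 * A z.2 = A i * ∑ z ∈ P, Function.update A i 1 z.1 * Function.update A i 1 z.2 +
      (1 - A i) * ∑ z ∈ P, Function.update A i 0 z.1 * Function.update A i 0 z.2 := by
    rw [Finset.mul_sum, Finset.mul_sum, ← Finset.sum_add_distrib]
    exact Finset.sum_congr rfl h2
  unfold Phi
  rw [e1, e2]
  ring

theorem Phi_round {k : ℕ} (P : Finset (Fin k × Fin k)) (hP : ∀ z ∈ P, z.1 ≠ z.2) (A : Fin k → ℝ) (hA : ∀ i, 0 ≤ A i ∧ A i ≤ 1)
    (S : Finset (Fin k)) : ∃ A' : Fin k → ℝ, (∀ i ∈ S, A' i = 0 ∨ A' i = 1) ∧ (∀ i, 0 ≤ A' i ∧ A' i ≤ 1) ∧ Phi P A ≤ Phi P A' := by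
  classical
  induction S using Finset.induction_on with
  | empty => exact ⟨A, fun i hi => absurd hi (Finset.notMem_empty i), hA, le_refl _⟩
  | insert i S hi ih =>
    obtain ⟨A', h1, h2, h3⟩ := ih
    have h4 := Phi_affine P hP A' i
    have hup : ∀ v : ℝ, (v = 0 ∨ v = 1) → (∀ j ∈ insert i S, Function.update A' i v j = 0 ∨ Function.update A' i v j = 1) ∧
        (∀ j, 0 ≤ Function.update A' i v j ∧ Function.update A' i v j ≤ 1) := by
      intro v hv
      constructor
      · intro j hj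
        by_cases hji : j = i
        · rw [hji, Function.update_self]
          exact hv
        · rw [Function.update_of_ne hji]
          exact h1 j (Finset.mem_of_mem_insert_of_ne hj hji)
      · intro j
        by_cases hji : j = i
        · rw [hji, Function.update_self]
          rcases hv with hv | hv <;> rw [hv] <;> norm_num
        · rw [Function.update_of_ne hji]
          exact h2 j
    rcases le_total (Phi P (Function.update A' i 0)) (Phi P (Function.update A' i 1)) with h5 | h5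
    · refine ⟨Function.update A' i 1, (hup 1 (Or.inr rfl)).1, (hup 1 (Or.inr rfl)).2, h3.trans ?_⟩
      have h6 := mul_le_mul_of_nonneg_left h5 (sub_nonneg.2 (h2 i).2)
      linarith
    · refine ⟨Function.update A' i 0, (hup 0 (Or.inl rfl)).1, (hup 0 (Or.inl rfl)).2, h3.trans ?_⟩
      have h6 := mul_le_mul_of_nonneg_left h5 (h2 i).1
      linarith

theorem Phi_bound {k : ℕ} (P : Finset (Fin k × Fin k)) (hP : ∀ z ∈ P, z.1 ≠ z.2) (m : ℝ)
    (h : ∀ I : Finset (Fin k), (∀ z ∈ P, ¬ (z.1 ∈ I ∧ z.2 ∈ I)) → (#I : ℝ) ≤ m) (A : Fin k → ℝ) (hA : ∀ i, 0 ≤ A i ∧ A i ≤ 1) :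
    Phi P A ≤ m := by
  classical
  obtain ⟨A', h1, -, h3⟩ := Phi_round P hP A hA Finset.univ
  refine h3.trans ?_
  obtain ⟨I, hI⟩ : ∃ I : Finset (Fin k), I = Finset.univ.filter fun i => A' i = 1 := ⟨_, rfl⟩
  have hmem : ∀ i, i ∈ I ↔ A' i = 1 := by
    intro i
    rw [hI, Finset.mem_filter]
    exact ⟨fun h => h.2, fun h => ⟨Finset.mem_univ _, h⟩⟩
  have hval : ∀ i, A' i = if i ∈ I then 1 else 0 := by
    intro i
    by_cases hi : i ∈ I
    · rw [if_pos hi]
      exact (hmem i).1 hi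
    · rw [if_neg hi]
      rcases h1 i (Finset.mem_univ i) with h4 | h4
      · exact h4
      · exact absurd ((hmem i).2 h4) hi
  obtain ⟨P', hP'⟩ : ∃ P' : Finset (Fin k × Fin k), P' = P.filter fun z => z.1 ∈ I ∧ z.2 ∈ I := ⟨_, rfl⟩
  have e1 : ∑ i, A' i = #I := by
    rw [Finset.sum_congr rfl fun i _ => hval i, Finset.sum_boole]
    congr 2
    ext i
    simp
  have e2 : ∑ z ∈ P, A' z.1 * A' z.2 = #P' := by
    have e3 : ∀ z ∈ P, A' z.1 * A' z.2 = if z.1 ∈ I ∧ z.2 ∈ I then 1 else 0 := by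
      intro z _
      rw [hval z.1, hval z.2]
      by_cases h4 : z.1 ∈ I
      · by_cases h5 : z.2 ∈ I
        · rw [if_pos h4, if_pos h5, if_pos ⟨h4, h5⟩, one_mul]
        · rw [if_neg h5, if_neg (fun h7 : z.1 ∈ I ∧ z.2 ∈ I => h5 h7.2), mul_zero]
      · rw [if_neg h4, if_neg (fun h7 : z.1 ∈ I ∧ z.2 ∈ I => h4 h7.1), zero_mul]
    rw [Finset.sum_congr rfl e3, Finset.sum_boole, hP']
  unfold Phi
  rw [e1, e2]
  obtain ⟨R, hR⟩ : ∃ R : Finset (Fin k), R = P'.image Prod.fst := ⟨_, rfl⟩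
  have h6 : (#(I \ R) : ℝ) ≤ m := by
    refine h _ ?_
    rintro z hz ⟨h7, h8⟩
    rw [Finset.mem_sdiff] at h7 h8
    refine h7.2 ?_
    rw [hR, Finset.mem_image]
    refine ⟨z, ?_, rfl⟩
    rw [hP', Finset.mem_filter]
    exact ⟨hz, h7.1, h8.1⟩
  have h9 : #I ≤ #(I \ R) + #P' := by
    have h10 : #I ≤ #(I \ R) + #R := by
      have := Finset.card_le_card (Finset.subset_union_left : I ⊆ I ∪ R)
      rw [← Finset.sdiff_union_self_eq_union] at this
      exact this.trans (Finset.card_union_le _ _)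
    have h11 : #R ≤ #P' := by
      rw [hR]
      exact Finset.card_image_le
    omega
  have h12 : (#I : ℝ) ≤ #(I \ R) + #P' := by exact_mod_cast h9
  linarith

theorem Clique_card {k : ℕ} (P : Finset (Fin k × Fin k)) (hP : ∀ z ∈ P, z.1 < z.2) : 2 * (#P : ℝ) ≤ (k : ℝ) ^ 2 := by
  classical
  have h1 : Disjoint P (P.image Prod.swap) := by
    rw [Finset.disjoint_left]
    intro z hz hz'
    rw [Finset.mem_image] at hz'
    obtain ⟨w, hw, hwz⟩ := hz'
    have h2 := hP z hz
    have h3 := hP w hw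
    rw [← hwz] at h2
    exact absurd h2 (not_lt.2 h3.le)
  have h2 : #(P.image Prod.swap) = #P := Finset.card_image_of_injective _ Prod.swap_injective
  have h3 : #P + #P ≤ k * k := by
    have h4 : #(P ∪ P.image Prod.swap) ≤ #(Finset.univ : Finset (Fin k × Fin k)) := Finset.card_le_card (Finset.subset_univ _)
    rw [Finset.card_union_of_disjoint h1, h2, Finset.card_univ, Fintype.card_prod, Fintype.card_fin] at h4
    exact h4
  have h4 : (#P : ℝ) + #P ≤ k * k := by exact_mod_cast h3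
  nlinarith

theorem KCL (ε lam : ℝ) (k C : ℕ) (hk : 1 ≤ k) (hlam : lam * (300000 * k) ≤ 1) (hlam0 : 0 ≤ lam)
    (hC : ∀ (F : Finset ℕ) (η : ℝ), (∀ s ∈ F, 0 < s) → 0 < η → LamM ε lam η C F) :
    ∀ F : Finset ℕ, (∀ s ∈ F, 0 < s) → ∃ E : Finset (ℕ × ℕ), #E ≤ C ∧ CliK ε k E (F : Set ℕ) := by
  classical
  intro F hF
  obtain ⟨E, hE, T, hT1, hT2, A, hA, hd, hp⟩ := hC F (1 / 10000000) hF (by norm_num)
  refine ⟨E, hE, ?_⟩
  intro s hs hinj hrat
  by_contra hcon
  push Not at hcon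
  have hk0 : (1 : ℝ) ≤ k := by exact_mod_cast hk
  -- the bad pairs
  obtain ⟨P, hP⟩ : ∃ P : Finset (Fin k × Fin k), P = Finset.univ.filter fun z => z.1 < z.2 ∧ ¬ GQM ε (s z.1) (s z.2) := ⟨_, rfl⟩
  have hPlt : ∀ z ∈ P, z.1 < z.2 := by
    intro z hz
    rw [hP, Finset.mem_filter] at hz
    exact hz.2.1
  have hPm : ∀ z ∈ P, mean (fun x => A (s z.1) x * A (s z.2) x) ≤ lam := by
    intro z hz
    rw [hP, Finset.mem_filter] at hz
    have hne : z.1 ≠ z.2 := ne_of_lt hz.2.1
    exact hp (s z.1) (hs z.1).2 (s z.2) (hs z.2).2 (fun h => hne (hinj h)) (hrat _ _ hne) hz.2.2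
  have hcl : ∀ I : Finset (Fin k), (∀ z ∈ P, ¬ (z.1 ∈ I ∧ z.2 ∈ I)) → (#I : ℝ) ≤ k / 4 := by
    intro I hI
    have hgood : ∀ i ∈ I, ∀ j ∈ I, i < j → GQM ε (s i) (s j) := by
      intro i hi j hj hij
      by_contra h
      refine hI (i, j) ?_ ⟨hi, hj⟩
      rw [hP, Finset.mem_filter]
      exact ⟨Finset.mem_univ _, hij, h⟩
    have h1 : ¬ k < 4 * #I := by
      intro h2
      obtain ⟨i, hi, j, hj, hij, h3⟩ := hcon I h2
      rcases lt_or_gt_of_ne hij with h4 | h4
      · exact h3 (hgood i hi j hj h4)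
      · exact h3 (GQMS.1 ε _ _ (hgood j hj i hi h4))
    have h2 : 4 * #I ≤ k := not_lt.1 h1
    have h3 : (4 : ℝ) * #I ≤ k := by exact_mod_cast h2
    linarith
  have key : ∀ x, ∑ i, A (s i) x ≤ (k : ℝ) / 4 + ∑ z ∈ P, A (s z.1) x * A (s z.2) x := by
    intro x
    have h1 := Phi_bound P (fun z hz => ne_of_lt (hPlt z hz)) (k / 4) hcl (fun i => A (s i) x) (fun i => hA (s i) x)
    unfold Phi at h1
    linarith
  -- the mean values
  have h1 : mean (fun x => ∑ i, A (s i) x) = ∑ i, mean (A (s i)) := KFR_sum (Finset.univ : Finset (Fin k)) (fun i => A (s i))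
  have h2 : k * (1 / 4 + 1 / 500000 - 1 / 10000000) ≤ ∑ i, mean (A (s i)) := by
    calc k * (1 / 4 + 1 / 500000 - 1 / 10000000) = ∑ _i : Fin k, ((1 : ℝ) / 4 + 1 / 500000 - 1 / 10000000) := by
          rw [Finset.sum_const, Finset.card_univ, Fintype.card_fin, nsmul_eq_mul]
      _ ≤ ∑ i, mean (A (s i)) := Finset.sum_le_sum fun i _ => hd (s i) (hs i).2
  have h3 : mean (fun x => ∑ i, A (s i) x) ≤ (k : ℝ) / 4 + ∑ z ∈ P, mean (fun x => A (s z.1) x * A (s z.2) x) := by
    refine (LAM_mean_mono key).trans (le_of_eq ?_)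
    rw [Clique_mean_add, Clique_mean_const, KFR_sum P (fun z x => A (s z.1) x * A (s z.2) x)]
  have h4 : ∑ z ∈ P, mean (fun x => A (s z.1) x * A (s z.2) x) ≤ #P * lam := by
    calc ∑ z ∈ P, mean (fun x => A (s z.1) x * A (s z.2) x) ≤ ∑ _z ∈ P, lam := Finset.sum_le_sum hPm
      _ = #P * lam := by rw [Finset.sum_const, nsmul_eq_mul]
  have h5 := mul_le_mul_of_nonneg_right (Clique_card P hPlt) hlam0
  have h6 : (k : ℝ) ^ 2 * lam * 300000 ≤ k := by
    have h7 := mul_le_mul_of_nonneg_left hlam (show (0 : ℝ) ≤ k by linarith)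
    calc (k : ℝ) ^ 2 * lam * 300000 = k * (lam * (300000 * k)) := by ring
      _ ≤ k * 1 := h7
      _ = k := mul_one _
  rw [h1] at h3
  linarith

/-- from the finite sets to all positive integers -/
theorem GLK (ε : ℝ) (k C : ℕ) (h : ∀ F : Finset ℕ, (∀ s ∈ F, 0 < s) → ∃ E : Finset (ℕ × ℕ), #E ≤ C ∧ CliK ε k E (F : Set ℕ)) :
    ∃ E : Finset (ℕ × ℕ), #E ≤ C ∧ CliK ε k E Set.univ := by
  classical
  have h0 : ∀ N : ℕ, ∃ E : Finset (ℕ × ℕ), #E ≤ C ∧ CliK ε k E ((Finset.Icc 1 N : Finset ℕ) : Set ℕ) := fun N =>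
    h (Finset.Icc 1 N) fun s hs => (Finset.mem_Icc.1 hs).1
  choose E hE hF using h0
  obtain ⟨U, hU⟩ : ∃ U : Ultrafilter ℕ, U = Filter.hyperfilter ℕ := ⟨_, rfl⟩
  have key : ∀ S : Finset (ℕ × ℕ), (∀ r ∈ S, ∀ᶠ N in (U : Filter ℕ), r ∈ E N) → #S ≤ C := by
    intro S hS
    have h1 : ∀ᶠ N in (U : Filter ℕ), ∀ r ∈ S, r ∈ E N := (Filter.eventually_all_finset S).2 hS
    obtain ⟨N, hN⟩ := h1.exists
    exact (Finset.card_le_card hN).trans (hE N)
  have hfin : {r : ℕ × ℕ | ∀ᶠ N in (U : Filter ℕ), r ∈ E N}.Finite := by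
    by_contra hinf
    obtain ⟨S, hS, hc⟩ := Set.Infinite.exists_subset_card_eq hinf (C + 1)
    have := key S fun r hr => hS hr
    omega
  refine ⟨hfin.toFinset, key _ fun r hr => hfin.mem_toFinset.1 hr, ?_⟩
  intro s hs hinj hrat
  have h2 : ∀ᶠ N in (U : Filter ℕ), ∀ i j : Fin k, i ≠ j → rp (s i) (s j) ∉ E N := by
    rw [Filter.eventually_all]
    intro i
    rw [Filter.eventually_all]
    intro j
    by_cases hij : i = j
    · exact Filter.Eventually.of_forall fun N h => absurd hij h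
    · have h3 : ¬ ∀ᶠ N in (U : Filter ℕ), rp (s i) (s j) ∈ E N := fun h4 => hrat i j hij (hfin.mem_toFinset.2 h4)
      rw [← Ultrafilter.eventually_not] at h3
      exact h3.mono fun N h _ => h
  have h3 : ∀ᶠ N in (U : Filter ℕ), ∀ i : Fin k, s i ≤ N := by
    rw [Filter.eventually_all]
    intro i
    rw [hU]
    exact Filter.hyperfilter_le_cofinite (by
      rw [Nat.cofinite_eq_atTop]
      exact Filter.eventually_ge_atTop (s i))
  obtain ⟨N, h4, h5⟩ := (h2.and h3).exists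
  exact hF N s (fun i => ⟨(hs i).1, by
    rw [Finset.mem_coe, Finset.mem_Icc]
    exact ⟨(hs i).1, h5 i⟩⟩) hinj h4

end Pool.Agent.FM
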