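import Pool.Agent.helper19.FM.Quant

/-!
# Project FM (MP_bf63dc_nt): every infinite set has an infinite subset all of whose quotients are good
-/

set_option autoImplicit false

namespace Pool.Agent.FM

open Finset Real Pool.Agent.AT Pool.Agent.OM Pool.Agent.helper85.FC Pool.Agent.FR

/-- for a given `s` a ratio determines `t` -/
theorem Inf_fin (s : ℕ) (hs : 0 < s) (r : ℕ × ℕ) : {t : ℕ | 0 < t ∧ (rp s t = r ∨ rp t s = r)}.Finite := by
  refine (Set.finite_Iic (s * (r.1 + r.2))).subset ?_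
  intro t ht
  obtain ⟨ht0, ht⟩ := ht
  rw [Set.mem_Iic]
  obtain ⟨x, hx⟩ := Nat.gcd_dvd_left s t
  obtain ⟨y, hy⟩ := Nat.gcd_dvd_right s t
  have hg : 0 < Nat.gcd s t := Nat.gcd_pos_of_pos_left _ hs
  have e1 : s / Nat.gcd s t = x := Nat.div_eq_of_eq_mul_right hg hx
  have e2 : t / Nat.gcd s t = y := Nat.div_eq_of_eq_mul_right hg hy
  have hgs : Nat.gcd s t ≤ s := Nat.gcd_le_left _ hs
  have key : t ≤ s * y := by
    calc t = Nat.gcd s t * y := hy
      _ ≤ s * y := Nat.mul_le_mul_right _ hgs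
  rcases ht with h | h
  · have h1 : r.2 = y := by rw [← h]; exact e2
    rw [← h1] at key
    exact key.trans (Nat.mul_le_mul_left _ (by omega))
  · have h1 : r.1 = y := by
      rw [← h]
      show t / Nat.gcd t s = y
      rw [Nat.gcd_comm]
      exact e2
    rw [← h1] at key
    exact key.trans (Nat.mul_le_mul_left _ (by omega))

/-- the good `s` form a set of the ultrafilter -/
theorem Inf_U (ε : ℝ) (E : Finset (ℕ × ℕ)) (hE : FourM ε E Set.univ) (U : Ultrafilter ℕ)
    (hU : (U : Filter ℕ) ≤ Filter.cofinite) : ∀ᶠ s in (U : Filter ℕ), ∀ᶠ t in (U : Filter ℕ), GQM ε s t := by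
  by_contra hcon
  rw [← Ultrafilter.eventually_not] at hcon
  have hpos : ∀ᶠ t in (U : Filter ℕ), 0 < t := hU (by
    rw [Nat.cofinite_eq_atTop]
    exact Filter.eventually_gt_atTop 0)
  have hbad : ∀ s : ℕ, (¬ ∀ᶠ t in (U : Filter ℕ), GQM ε s t) → ∀ᶠ t in (U : Filter ℕ), ¬ GQM ε s t := fun s h =>
    Ultrafilter.eventually_not.2 h
  have hrat : ∀ s : ℕ, 0 < s → ∀ᶠ t in (U : Filter ℕ), s ≠ t ∧ rp s t ∉ E ∧ rp t s ∉ E := by
    intro s hs
    have h1 : ∀ᶠ t in (U : Filter ℕ), s ≠ t := hU (by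
      rw [Nat.cofinite_eq_atTop]
      exact (Filter.eventually_gt_atTop s).mono fun t ht => Nat.ne_of_lt ht)
    have h2 : ∀ᶠ t in (U : Filter ℕ), ∀ r ∈ E, ¬ (0 < t ∧ (rp s t = r ∨ rp t s = r)) := by
      rw [Filter.eventually_all_finset]
      intro r _
      have h3 : ∀ᶠ t in (Filter.cofinite : Filter ℕ), ¬ (0 < t ∧ (rp s t = r ∨ rp t s = r)) := by
        rw [Filter.eventually_cofinite]
        simp only [not_not]
        exact Inf_fin s hs r
      exact hU h3
    filter_upwards [h1, h2, hpos] with t ht1 ht2 ht3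
    exact ⟨ht1, fun h => ht2 _ h ⟨ht3, Or.inl rfl⟩, fun h => ht2 _ h ⟨ht3, Or.inr rfl⟩⟩
  obtain ⟨s0, b0, p0⟩ := (hcon.and hpos).exists
  have c0 := hcon.and (hpos.and ((hbad s0 b0).and (hrat s0 p0)))
  obtain ⟨s1, b1, p1, n01, r01⟩ := c0.exists
  have c1 := c0.and ((hbad s1 b1).and (hrat s1 p1))
  obtain ⟨s2, ⟨b2, p2, n02, r02⟩, n12, r12⟩ := c1.exists
  have c2 := c1.and ((hbad s2 b2).and (hrat s2 p2))
  obtain ⟨s3, ⟨⟨b3, p3, n03, r03⟩, n13, r13⟩, n23, r23⟩ := c2.exists
  have hsym : ∀ s t, ¬ GQM ε s t → ¬ GQM ε t s := fun s t h h' => h (GQMS.1 ε t s h')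
  obtain ⟨s, hs⟩ : ∃ s : Fin 4 → ℕ, s = ![s0, s1, s2, s3] := ⟨_, rfl⟩
  have e0 : s 0 = s0 := by rw [hs]; rfl
  have e1 : s 1 = s1 := by rw [hs]; rfl
  have e2 : s 2 = s2 := by rw [hs]; rfl
  have e3 : s 3 = s3 := by rw [hs]; rfl
  obtain ⟨i, j, hij, hG⟩ := hE s (by
      intro i
      refine ⟨?_, Set.mem_univ _⟩
      fin_cases i
      · show 0 < s 0
        rw [e0]; exact p0
      · show 0 < s 1
        rw [e1]; exact p1
      · show 0 < s 2
        rw [e2]; exact p2
      · show 0 < s 3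
        rw [e3]; exact p3) (by
      intro i j hEq
      by_contra hne
      fin_cases i <;> fin_cases j <;>
        first
          | exact hne rfl
          | exact r01.1 (by rw [← e0, ← e1]; exact hEq)
          | exact r01.1 (by rw [← e0, ← e1]; exact hEq.symm)
          | exact r02.1 (by rw [← e0, ← e2]; exact hEq)
          | exact r02.1 (by rw [← e0, ← e2]; exact hEq.symm)
          | exact r03.1 (by rw [← e0, ← e3]; exact hEq)
          | exact r03.1 (by rw [← e0, ← e3]; exact hEq.symm)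
          | exact r12.1 (by rw [← e1, ← e2]; exact hEq)
          | exact r12.1 (by rw [← e1, ← e2]; exact hEq.symm)
          | exact r13.1 (by rw [← e1, ← e3]; exact hEq)
          | exact r13.1 (by rw [← e1, ← e3]; exact hEq.symm)
          | exact r23.1 (by rw [← e2, ← e3]; exact hEq)
          | exact r23.1 (by rw [← e2, ← e3]; exact hEq.symm)) (by
      intro i j hne
      fin_cases i <;> fin_cases j <;>
        first
          | exact absurd rfl hne
          | (show rp (s 0) (s 1) ∉ E; rw [e0, e1]; exact r01.2.1)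
          | (show rp (s 1) (s 0) ∉ E; rw [e0, e1]; exact r01.2.2)
          | (show rp (s 0) (s 2) ∉ E; rw [e0, e2]; exact r02.2.1)
          | (show rp (s 2) (s 0) ∉ E; rw [e0, e2]; exact r02.2.2)
          | (show rp (s 0) (s 3) ∉ E; rw [e0, e3]; exact r03.2.1)
          | (show rp (s 3) (s 0) ∉ E; rw [e0, e3]; exact r03.2.2)
          | (show rp (s 1) (s 2) ∉ E; rw [e1, e2]; exact r12.2.1)
          | (show rp (s 2) (s 1) ∉ E; rw [e1, e2]; exact r12.2.2)
          | (show rp (s 1) (s 3) ∉ E; rw [e1, e3]; exact r13.2.1)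
          | (show rp (s 3) (s 1) ∉ E; rw [e1, e3]; exact r13.2.2)
          | (show rp (s 2) (s 3) ∉ E; rw [e2, e3]; exact r23.2.1)
          | (show rp (s 3) (s 2) ∉ E; rw [e2, e3]; exact r23.2.2))
  revert hG
  fin_cases i <;> fin_cases j <;>
    first
      | exact absurd rfl hij
      | (show GQM ε (s 0) (s 1) → False; rw [e0, e1]; exact n01)
      | (show GQM ε (s 1) (s 0) → False; rw [e0, e1]; exact hsym _ _ n01)
      | (show GQM ε (s 0) (s 2) → False; rw [e0, e2]; exact n02)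
      | (show GQM ε (s 2) (s 0) → False; rw [e0, e2]; exact hsym _ _ n02)
      | (show GQM ε (s 0) (s 3) → False; rw [e0, e3]; exact n03)
      | (show GQM ε (s 3) (s 0) → False; rw [e0, e3]; exact hsym _ _ n03)
      | (show GQM ε (s 1) (s 2) → False; rw [e1, e2]; exact n12)
      | (show GQM ε (s 2) (s 1) → False; rw [e1, e2]; exact hsym _ _ n12)
      | (show GQM ε (s 1) (s 3) → False; rw [e1, e3]; exact n13)
      | (show GQM ε (s 3) (s 1) → False; rw [e1, e3]; exact hsym _ _ n13)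
      | (show GQM ε (s 2) (s 3) → False; rw [e2, e3]; exact n23)
      | (show GQM ε (s 3) (s 2) → False; rw [e2, e3]; exact hsym _ _ n23)

/-- every infinite set of positive integers has an infinite subset `T` such that for every `ε > 0` all quotients of two elements of
`T` outside a finite set are `ε`-good -/
theorem INF (h : ∀ ε : ℝ, 0 < ε → ∃ E : Finset (ℕ × ℕ), FourM ε E Set.univ) (S : Set ℕ) (hS : S.Infinite) :
    ∃ T : Set ℕ, T ⊆ S ∧ T.Infinite ∧ ∀ ε : ℝ, 0 < ε → ∃ M : ℕ, ∀ s ∈ T, ∀ t ∈ T, M < s → M < t → s ≠ t → GQM ε s t := by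
  classical
  have hne : (Filter.cofinite ⊓ Filter.principal S).NeBot := by
    rw [Filter.inf_principal_neBot_iff]
    intro V hV
    rw [Filter.mem_cofinite] at hV
    by_contra hcon
    rw [Set.not_nonempty_iff_eq_empty] at hcon
    refine hS (hV.subset ?_)
    intro x hx hxV
    have : x ∈ V ∩ S := ⟨hxV, hx⟩
    rw [hcon] at this
    exact this
  obtain ⟨U, hU⟩ : ∃ U : Ultrafilter ℕ, (U : Filter ℕ) ≤ Filter.cofinite ⊓ Filter.principal S :=
    ⟨@Ultrafilter.of _ _ hne, @Ultrafilter.of_le _ _ hne⟩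
  have hU1 : (U : Filter ℕ) ≤ Filter.cofinite := hU.trans inf_le_left
  have hUS : ∀ᶠ t in (U : Filter ℕ), t ∈ S := (hU.trans inf_le_right) (Filter.mem_principal_self S)
  have hA : ∀ n : ℕ, ∀ᶠ s in (U : Filter ℕ), ∀ᶠ t in (U : Filter ℕ), GQM (1 / ((n : ℝ) + 1)) s t := by
    intro n
    obtain ⟨E, hE⟩ := h (1 / ((n : ℝ) + 1)) (by positivity)
    exact Inf_U _ E hE U hU1
  obtain ⟨f, hf1, hf2⟩ := exists_seq_of_forall_finset_exists
    (fun x : ℕ × ℕ => x.2 ∈ S ∧ ∀ᶠ t in (U : Filter ℕ), GQM (1 / ((x.1 : ℝ) + 1)) x.2 t)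
    (fun x y : ℕ × ℕ => x.1 < y.1 ∧ x.2 < y.2 ∧ GQM (1 / ((x.1 : ℝ) + 1)) x.2 y.2) (by
      intro s hs
      obtain ⟨n, hn⟩ : ∃ n : ℕ, n = (∑ x ∈ s, x.1) + 1 := ⟨_, rfl⟩
      have hn' : ∀ x ∈ s, x.1 < n := by
        intro x hx
        have := Finset.single_le_sum (f := fun x : ℕ × ℕ => x.1) (fun _ _ => Nat.zero_le _) hx
        omega
      have h1 : ∀ᶠ t in (U : Filter ℕ), ∀ x ∈ s, x.2 < t := by
        rw [Filter.eventually_all_finset]
        intro x _
        refine hU1 ?_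
        rw [Nat.cofinite_eq_atTop]
        exact Filter.eventually_gt_atTop _
      have h2 : ∀ᶠ t in (U : Filter ℕ), ∀ x ∈ s, GQM (1 / ((x.1 : ℝ) + 1)) x.2 t := by
        rw [Filter.eventually_all_finset]
        intro x hx
        exact (hs x hx).2
      obtain ⟨t, h3, h4, h5, h6⟩ := (h1.and (h2.and (hUS.and (hA n)))).exists
      exact ⟨(n, t), ⟨h5, h6⟩, fun x hx => ⟨hn' x hx, h3 x hx, h4 x hx⟩⟩)
  have hmono : ∀ i j, i < j → (f i).2 < (f j).2 := fun i j hij => (hf2 i j hij).2.1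
  have hmono1 : ∀ i j, i < j → (f i).1 < (f j).1 := fun i j hij => (hf2 i j hij).1
  have hge : ∀ i, i ≤ (f i).1 := by
    intro i
    have : StrictMono fun i => (f i).1 := fun i j hij => hmono1 i j hij
    exact this.le_apply
  have hsm : StrictMono fun i => (f i).2 := fun i j hij => hmono i j hij
  refine ⟨Set.range fun i => (f i).2, ?_, Set.infinite_range_of_injective hsm.injective, ?_⟩
  · rintro _ ⟨i, rfl⟩
    exact (hf1 i).1
  · intro ε hε
    obtain ⟨M, hM⟩ := exists_nat_one_div_lt hε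
    refine ⟨(f M).2, ?_⟩
    rintro _ ⟨i, rfl⟩ _ ⟨j, rfl⟩ hi hj hne
    have hiM : M < i := hsm.lt_iff_lt.1 hi
    have hjM : M < j := hsm.lt_iff_lt.1 hj
    have hlt : ∀ i j, M < i → i < j → GQM ε (f i).2 (f j).2 := by
      intro i j hi hij
      refine GQMS.2.2 _ ε _ _ ?_ (hf2 i j hij).2.2
      refine le_trans ?_ hM.le
      have h1 : (M : ℝ) ≤ (f i).1 := by exact_mod_cast (hi.le.trans (hge i))
      exact one_div_le_one_div_of_le (by positivity) (by linarith)
    rcases lt_trichotomy i j with h1 | h1 | h1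
    · exact hlt i j hiM h1
    · exact absurd (by rw [h1]) hne
    · exact GQMS.1 _ _ _ (hlt j i hjM h1)

end Pool.Agent.FM
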