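import Pool.Agent.helper19.FM.Asm
import Pool.Agent.helper19.FM.Clique
import Pool.Agent.helper19.FM.Inf

/-!
# Project FM (MP_bf63dc_nt): assembly for `k` integers
-/

set_option autoImplicit false

namespace Pool.Agent.FM

open Finset Real Pool.Agent.AT Pool.Agent.OM Pool.Agent.helper85.FC Pool.Agent.FR

/-- the number of the exceptional ratios for `k` integers -/
theorem Asm2_C (ε : ℝ) (k : ℕ) (hk : 1 ≤ k) (hε : 0 < ε) (hε1 : ε ≤ 1) :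
    ∃ C : ℕ, 2 ^ 76 / (ε * (1 / (300000 * k))) ^ 18 ≤ (C : ℝ) ∧ 18 * (C : ℝ) + 3 ≤ 10 ^ 124 * ((k : ℝ) / ε) ^ 18 := by
  have hk0 : (1 : ℝ) ≤ k := by exact_mod_cast hk
  have hkp : (0 : ℝ) < k := by linarith
  obtain ⟨w, hw⟩ : ∃ w : ℝ, w = ((k : ℝ) / ε) ^ 18 := ⟨_, rfl⟩
  have h3 : (1 : ℝ) ≤ w := by
    rw [hw]
    refine one_le_pow₀ ?_
    rw [le_div_iff₀ hε, one_mul]
    linarith
  obtain ⟨z, hz⟩ : ∃ z : ℝ, z = (2 : ℝ) ^ 76 / (ε * (1 / (300000 * k))) ^ 18 := ⟨_, rfl⟩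
  have hz0 : 0 ≤ z := by rw [hz]; positivity
  have h2 : z = (2 ^ 76 * 300000 ^ 18) * w := by
    rw [hz, hw, mul_pow, div_pow, div_pow, mul_pow]
    field_simp
  rw [← hz, ← hw]
  refine ⟨⌈z⌉₊, Nat.le_ceil _, ?_⟩
  have h1 : ((⌈z⌉₊ : ℕ) : ℝ) < z + 1 := Nat.ceil_lt_add_one hz0
  have h5 : 18 * ((⌈z⌉₊ : ℕ) : ℝ) + 3 ≤ 18 * (2 ^ 76 * 300000 ^ 18 * w + 1) + 3 := by
    rw [← h2]
    linarith
  refine h5.trans ?_
  have h7 : 18 * (2 ^ 76 * 300000 ^ 18 * w + 1) + 3 ≤ (18 * (2 ^ 76 * 300000 ^ 18) + 21) * w := by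
    have h8 : 18 * (2 ^ 76 * 300000 ^ 18 * w + 1) + 3 = 18 * (2 ^ 76 * 300000 ^ 18) * w + 21 * 1 := by ring
    rw [h8, add_mul]
    linarith
  refine h7.trans ?_
  have h8 : (18 * (2 ^ 76 * 300000 ^ 18) + 21 : ℝ) ≤ 10 ^ 124 := by norm_num
  exact mul_le_mul_of_nonneg_right h8 (by linarith)

/-- `k` integers, finite sets -/
theorem mainK (hSPE : SPE_stmt) (hORT : Pool.Agent.FR.ORT_stmt) (ε : ℝ) (k C : ℕ) (hk : 1 ≤ k) (hε : 0 < ε) (hε1 : ε ≤ 1)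
    (hC : 2 ^ 76 / (ε * (1 / (300000 * k))) ^ 18 ≤ (C : ℝ)) :
    ∀ F : Finset ℕ, (∀ s ∈ F, 0 < s) → ∃ E : Finset (ℕ × ℕ), #E ≤ C ∧ CliK ε k E (F : Set ℕ) := by
  have hk0 : (1 : ℝ) ≤ k := by exact_mod_cast hk
  have hkp : (0 : ℝ) < k := by linarith
  have hl0 : (0 : ℝ) < 1 / (300000 * k) := by positivity
  have hl1 : (1 : ℝ) / (300000 * k) ≤ 1 := by
    rw [div_le_one (by positivity)]
    linarith
  refine KCL ε (1 / (300000 * k)) k C hk ?_ hl0.le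
    (LAMM KBD hSPE (COR CSY ERR MAI PRJ) (EXC hORT BES) FOL FOK MOD Q_all PRT ε (1 / (300000 * k)) C hε hl0 ?_ hC)
  · rw [one_div, inv_mul_cancel₀ (by positivity)]
  · calc ε * (1 / (300000 * k)) ≤ 1 * 1 := mul_le_mul hε1 hl1 hl0.le zero_le_one
      _ = 1 := one_mul 1

/-- two of four integers -/
theorem CliK_four (ε : ℝ) (E : Finset (ℕ × ℕ)) (F : Set ℕ) (h : CliK ε 4 E F) : FourM ε E F := by
  intro s hs hinj hrat
  obtain ⟨I, hI, hg⟩ := h s hs hinj hrat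
  have h1 : 1 < #I := by omega
  obtain ⟨i, hi, j, hj, hij⟩ := Finset.one_lt_card.1 h1
  exact ⟨i, j, hij, hg i hi j hj hij⟩

end Pool.Agent.FM
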