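import Pool.Agent.helper19.FR.Spec
import Pool.Agent.helper25.OM.GSY

/-!
# Project FM (MP_bf63dc_nt): the theorem of project FR for long intervals of positive relative length

`GoodM ε a b`: there are `q`, `r` and `K` such that for arbitrarily large `T` some `T` consecutive terms of the progression `r + q ℤ`, whose
distance from `0` is at most `K T` terms, contain at least `(1 - ε) T` true `c`. This is stronger than `GoodR` (where the position of the
`T` terms is arbitrary). The proof of FR gives it: the length `l` of the averages and the size `X` of the windows can be chosen comparable.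
-/

set_option autoImplicit false

namespace Pool.Agent.FM

open Finset Real Pool.Agent.AT Pool.Agent.OM Pool.Agent.helper85.FC Pool.Agent.FR

/-- for arbitrarily large `T` at least `(1 - ε) T` of some `T` consecutive terms of `r + q ℤ`, at most `K T` terms from `0`, are true -/
def GoodM (ε : ℝ) (a b : ℕ) : Prop := ∃ q r K : ℕ, 1 ≤ q ∧ ∀ T₀ : ℕ, ∃ T : ℕ, T₀ ≤ T ∧ ∃ u : ℤ, |u| ≤ K * T ∧
  (1 - ε) * T ≤ NR a b q T (r + q * u)

/-- the same for `s/t` in lowest terms -/
def GQM (ε : ℝ) (s t : ℕ) : Prop := GoodM ε (s / Nat.gcd s t) (t / Nat.gcd s t)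

/-! ### symmetry, scaling, monotonicity -/

theorem GSM (ε : ℝ) (a b : ℕ) (h : GoodM ε a b) : GoodM ε b a := by
  obtain ⟨q, r, K, hq, h⟩ := h
  have hqz : (0 : ℤ) < q := by exact_mod_cast hq
  have hq0 : (q : ℤ) ≠ 0 := hqz.ne'
  have hnn : 0 ≤ (-(r : ℤ)) % q := Int.emod_nonneg _ hq0
  refine ⟨q, ((-(r : ℤ)) % q).toNat, K + r + 2, hq, ?_⟩
  intro T₀
  obtain ⟨T, hT, u, hK, hu⟩ := h (T₀ + 1)
  have hT1 : 1 ≤ T := by omega
  refine ⟨T, by omega, (-(r : ℤ)) / q - (u + ((T : ℤ) - 1)), ?_, ?_⟩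
  · have e1 : -(r : ℤ) ≤ (-(r : ℤ)) / q := by
      rw [Int.le_ediv_iff_mul_le hqz]
      have : (0 : ℤ) ≤ r := by positivity
      nlinarith
    have e2 : (-(r : ℤ)) / q ≤ 0 := by
      have h1 : (-(r : ℤ)) / q < 1 := by
        apply Int.ediv_lt_of_lt_mul hqz
        have : (0 : ℤ) ≤ r := by positivity
        linarith
      omega
    have hTz : (1 : ℤ) ≤ T := by exact_mod_cast hT1
    have hr0 : (0 : ℤ) ≤ r := by positivity
    have hrT : (r : ℤ) ≤ r * T := by nlinarith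
    rw [abs_le] at hK ⊢
    push_cast
    constructor <;> nlinarith [hK.1, hK.2]
  · have h1 : (((((-(r : ℤ)) % q).toNat : ℕ) : ℤ) + q * ((-(r : ℤ)) / q - (u + ((T : ℤ) - 1)))) =
        -((r : ℤ) + q * u) - q * ((T : ℤ) - 1) := by
      rw [Int.toNat_of_nonneg hnn]
      have h2 := Int.emod_add_mul_ediv (-(r : ℤ)) q
      linear_combination h2
    have h3 := GSY_NR a b q T ((r : ℤ) + q * u) _ h1
    have h4 : (NR a b q T ((r : ℤ) + q * u) : ℝ) ≤ NR b a q T (((((-(r : ℤ)) % q).toNat : ℕ) : ℤ) + q * ((-(r : ℤ)) / q - (u + ((T : ℤ) - 1)))) := by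
      exact_mod_cast h3
    exact le_trans hu h4

theorem GQMS : (∀ (ε : ℝ) (s t : ℕ), GQM ε s t → GQM ε t s) ∧
    (∀ (ε : ℝ) (c s t : ℕ), 1 ≤ c → (GQM ε (s * c) (t * c) ↔ GQM ε s t)) ∧
    ∀ (ε ε' : ℝ) (s t : ℕ), ε ≤ ε' → GQM ε s t → GQM ε' s t := by
  refine ⟨?_, ?_, ?_⟩
  · intro ε s t h
    unfold GQM at h ⊢
    rw [Nat.gcd_comm t s]
    exact GSM ε _ _ h
  · intro ε c s t hc
    unfold GQM
    rw [Nat.gcd_mul_right, Nat.mul_div_mul_right _ _ hc, Nat.mul_div_mul_right _ _ hc]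
  · intro ε ε' s t hε h
    obtain ⟨q, r, K, hq, h⟩ := h
    refine ⟨q, r, K, hq, fun T₀ => ?_⟩
    obtain ⟨T, hT, u, hK, hu⟩ := h T₀
    refine ⟨T, hT, u, hK, le_trans ?_ hu⟩
    have : (0 : ℝ) ≤ T := by positivity
    nlinarith

/-- long stretches of positive relative length contain stretches of every length: `GoodM` is stronger than `GoodR` (for a slightly
larger `ε`) -/
theorem GoodM_mono (ε ε' : ℝ) (a b : ℕ) (hε : ε ≤ ε') (h : GoodM ε a b) : GoodM ε' a b := by
  obtain ⟨q, r, K, hq, h⟩ := h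
  refine ⟨q, r, K, hq, fun T₀ => ?_⟩
  obtain ⟨T, hT, u, hK, hu⟩ := h T₀
  refine ⟨T, hT, u, hK, le_trans ?_ hu⟩
  have : (0 : ℝ) ≤ T := by positivity
  nlinarith

end Pool.Agent.FM
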