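import Pool.Agent.helper19.FM.POW
import Pool.Agent.helper19.FM.Clique

/-!
# Project FM (MP_bf63dc_nt): exponents

`Exp_four`: four exponents with differences outside the exceptional set have a good difference. Consequences: `Exp_any` (any finite
number of pairs have a common good exponent, bounded), `Exp_seq` (one sequence of exponents for all pairs), `Exp_third` (a third of all
exponents of every pair).
-/

set_option autoImplicit false

namespace Pool.Agent.FM

open Finset Real Pool.Agent.AT Pool.Agent.OM Pool.Agent.helper85.FC Pool.Agent.FR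

/-- Ramsey's theorem for `r`-element sets and finitely many colours (copy of `Pool.Agent.helper35.MR.RAM_R`) -/
theorem Exp_RAM (r : ℕ) : ∀ (C : Type) [Fintype C] (N : ℕ), ∃ n : ℕ, ∀ (c : Finset ℕ → C)
    (S : Finset ℕ), n ≤ S.card → ∃ T ⊆ S, T.card = N ∧
      ∀ A ⊆ T, ∀ B ⊆ T, A.card = r → B.card = r → c A = c B := by
  induction r with
  | zero =>
    intro C _ N
    refine ⟨N, fun c S hS => ?_⟩
    obtain ⟨T, hT, hTN⟩ := exists_subset_card_eq hS
    exact ⟨T, hT, hTN, fun A _ B _ hA hB => by rw [card_eq_zero.1 hA, card_eq_zero.1 hB]⟩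
  | succ r ih =>
    intro C _ N
    classical
    have hP : ∀ L : ℕ, ∃ n : ℕ, ∀ (c : Finset ℕ → C) (S : Finset ℕ), n ≤ S.card →
        ∃ T ⊆ S, T.card = L ∧ ∃ col : ℕ → C, ∀ x ∈ T, ∀ A ⊆ T, (∀ a ∈ A, x < a) → A.card = r →
          c (insert x A) = col x := by
      intro L
      induction L with
      | zero =>
        exact ⟨0, fun c S _ => ⟨∅, empty_subset _, rfl, fun _ => c ∅,
          fun x hx => absurd hx (notMem_empty x)⟩⟩
      | succ L ihL =>
        obtain ⟨n1, h1⟩ := ihL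
        obtain ⟨n2, h2⟩ := ih C n1
        refine ⟨n2 + 1, fun c S hS => ?_⟩
        have hne : S.Nonempty := card_pos.1 (by omega)
        set x := S.min' hne with hx
        obtain ⟨T', hT'S, hT'c, hT'⟩ := h2 (fun A => c (insert x A)) (S.erase x)
          (by rw [card_erase_of_mem (min'_mem _ _)]; omega)
        obtain ⟨T'', hT''T', hT''c, col, hcol⟩ := h1 c T' hT'c.ge
        have hxT : ∀ a ∈ T'', x < a := fun a ha =>
          min'_lt_of_mem_erase_min' _ _ (hT'S (hT''T' ha))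
        refine ⟨insert x T'', insert_subset (min'_mem _ _)
          (hT''T'.trans (hT'S.trans (erase_subset _ _))), ?_, ?_⟩
        · rw [card_insert_of_notMem (fun h => lt_irrefl _ (hxT x h)), hT''c]
        · obtain ⟨cx, hcx⟩ : ∃ cx, ∀ A ⊆ T', A.card = r → c (insert x A) = cx := by
            by_cases hex : ∃ A0 ⊆ T', A0.card = r
            · obtain ⟨A0, hA0, hA0c⟩ := hex
              exact ⟨c (insert x A0), fun A hA hAc => hT' A hA A0 hA0 hAc hA0c⟩
            · push Not at hex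
              exact ⟨c ∅, fun A hA hAc => absurd hAc (hex A hA)⟩
          refine ⟨fun y => if y = x then cx else col y, ?_⟩
          intro y hy A hA hyA hAc
          have hxy : x ≤ y := by
            rcases mem_insert.1 hy with h | h
            · exact h.ge
            · exact (hxT y h).le
          have hAT : A ⊆ T'' := by
            intro a ha
            rcases mem_insert.1 (hA ha) with h | h
            · exact absurd (hyA a ha) (by omega)
            · exact h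
          change c (insert y A) = if y = x then cx else col y
          by_cases hyx : y = x
          · rw [if_pos hyx, hyx]
            exact hcx A (hAT.trans hT''T') hAc
          · rw [if_neg hyx]
            exact hcol y ((mem_insert.1 hy).resolve_left hyx) A hAT hyA hAc
    obtain ⟨n, hn⟩ := hP (Fintype.card C * N)
    refine ⟨n, fun c S hS => ?_⟩
    obtain ⟨T, hTS, hTc, col, hcol⟩ := hn c S hS
    obtain ⟨y, -, hy⟩ := exists_le_card_fiber_of_mul_le_card_of_maps_to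
      (s := T) (t := (univ : Finset C)) (f := col) (n := N) (fun a _ => mem_univ _)
      ⟨c ∅, mem_univ _⟩ (by rw [card_univ, hTc])
    obtain ⟨T', hT', hT'c⟩ := exists_subset_card_eq hy
    have key : ∀ A ⊆ T', A.card = r + 1 → c A = y := by
      intro A hA hAc
      have hne : A.Nonempty := card_pos.1 (by omega)
      have h1 := hT' (hA (min'_mem A hne))
      rw [mem_filter] at h1
      have h2 := hcol (A.min' hne) h1.1 (A.erase (A.min' hne))
        ((erase_subset _ _).trans (hA.trans (hT'.trans (filter_subset _ _))))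
        (fun a ha => min'_lt_of_mem_erase_min' _ _ ha)
        (by rw [card_erase_of_mem (min'_mem _ _), hAc]; rfl)
      rw [insert_erase (min'_mem _ _), h1.2] at h2
      exact h2
    exact ⟨T', hT'.trans ((filter_subset _ _).trans hTS), hT'c,
      fun A hA B hB hAc hBc => by rw [key A hA hAc, key B hB hBc]⟩

/-- Ramsey's theorem for four elements -/
theorem Exp_ramsey (C : Type) [Fintype C] : ∃ n : ℕ, ∀ χ : ℕ → ℕ → C, ∃ t : Fin 4 → ℕ, StrictMono t ∧ (∀ i, t i < n) ∧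
    ∃ c : C, ∀ i j, i < j → χ (t i) (t j) = c := by
  classical
  obtain ⟨n, hn⟩ := Exp_RAM 2 C 4
  refine ⟨n, fun χ => ?_⟩
  obtain ⟨T, hT, hT4, hc⟩ := hn (fun A => if h : A.Nonempty then χ (A.min' h) (A.max' h) else χ 0 0) (range n) (by simp)
  refine ⟨T.orderEmbOfFin hT4, (T.orderEmbOfFin hT4).strictMono, fun i => mem_range.1 (hT (orderEmbOfFin_mem T hT4 i)), ?_⟩
  have key : ∀ i j : Fin 4, i < j → (if h : ({T.orderEmbOfFin hT4 i, T.orderEmbOfFin hT4 j} : Finset ℕ).Nonempty then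
      χ (({T.orderEmbOfFin hT4 i, T.orderEmbOfFin hT4 j} : Finset ℕ).min' h)
        (({T.orderEmbOfFin hT4 i, T.orderEmbOfFin hT4 j} : Finset ℕ).max' h) else χ 0 0) =
      χ (T.orderEmbOfFin hT4 i) (T.orderEmbOfFin hT4 j) := by
    intro i j hij
    have h1 : T.orderEmbOfFin hT4 i < T.orderEmbOfFin hT4 j := (T.orderEmbOfFin hT4).strictMono hij
    have hne : ({T.orderEmbOfFin hT4 i, T.orderEmbOfFin hT4 j} : Finset ℕ).Nonempty := ⟨_, mem_insert_self _ _⟩
    rw [dif_pos hne]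
    have e1 : ({T.orderEmbOfFin hT4 i, T.orderEmbOfFin hT4 j} : Finset ℕ).min' hne = T.orderEmbOfFin hT4 i := by
      apply le_antisymm (min'_le _ _ (mem_insert_self _ _))
      refine le_min' _ _ _ fun y hy => ?_
      rcases mem_insert.1 hy with h | h
      · exact h.ge
      · exact (mem_singleton.1 h) ▸ h1.le
    have e2 : ({T.orderEmbOfFin hT4 i, T.orderEmbOfFin hT4 j} : Finset ℕ).max' hne = T.orderEmbOfFin hT4 j := by
      apply le_antisymm
      · refine max'_le _ _ _ fun y hy => ?_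
        rcases mem_insert.1 hy with h | h
        · exact h ▸ h1.le
        · exact (mem_singleton.1 h).le
      · exact le_max' _ _ (mem_insert_of_mem (mem_singleton_self _))
    rw [e1, e2]
  refine ⟨χ (T.orderEmbOfFin hT4 0) (T.orderEmbOfFin hT4 1), fun i j hij => ?_⟩
  have hsub : ∀ i j : Fin 4, ({T.orderEmbOfFin hT4 i, T.orderEmbOfFin hT4 j} : Finset ℕ) ⊆ T := by
    intro i j x hx
    rcases mem_insert.1 hx with h | h
    · exact h ▸ orderEmbOfFin_mem T hT4 i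
    · exact (mem_singleton.1 h) ▸ orderEmbOfFin_mem T hT4 j
  have hcard : ∀ i j : Fin 4, i < j → #({T.orderEmbOfFin hT4 i, T.orderEmbOfFin hT4 j} : Finset ℕ) = 2 := by
    intro i j hij
    exact card_pair ((T.orderEmbOfFin hT4).strictMono hij).ne
  have h2 := hc _ (hsub i j) _ (hsub 0 1) (hcard i j hij) (hcard 0 1 (by decide))
  rw [← key i j hij, ← key 0 1 (by decide)]
  exact h2

/-- four exponents with differences outside the exceptional set have a good difference -/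
theorem Exp_four (hGSY : GSM_stmt) (ε : ℝ) (E : Finset (ℕ × ℕ)) (hE : FourM ε E Set.univ) (a b : ℕ) (ha : 1 ≤ a) (hb : 1 ≤ b)
    (hab : Nat.Coprime a b) (hne : ¬ (a = 1 ∧ b = 1)) (h : Fin 4 → ℕ) (hh : StrictMono h)
    (hx : ∀ i j, i < j → (a ^ (h j - h i), b ^ (h j - h i)) ∉ E ∧ (b ^ (h j - h i), a ^ (h j - h i)) ∉ E) :
    ∃ i j, i < j ∧ GoodM ε (a ^ (h j - h i)) (b ^ (h j - h i)) := by
  obtain ⟨K, hK⟩ : ∃ K : ℕ, K = h 3 := ⟨_, rfl⟩
  have hle : ∀ i, h i ≤ K := fun i => hK ▸ hh.monotone (Fin.le_last i)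
  have hrp : ∀ i j : Fin 4, i < j → rp (a ^ h j * b ^ (K - h j)) (a ^ h i * b ^ (K - h i)) = (a ^ (h j - h i), b ^ (h j - h i)) ∧
      rp (a ^ h i * b ^ (K - h i)) (a ^ h j * b ^ (K - h j)) = (b ^ (h j - h i), a ^ (h j - h i)) := by
    intro i j hij
    have h1 := hh hij
    have h2 := hle j
    have h3 := POW_rp1 a b K (h i) (h j - h i) ha hb hab (by omega)
    rw [show h i + (h j - h i) = h j by omega] at h3
    exact h3
  have hneq : ∀ i j : Fin 4, i < j → a ^ h i * b ^ (K - h i) ≠ a ^ h j * b ^ (K - h j) := by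
    intro i j hij hEq
    have h1 := hrp i j hij
    rw [hEq] at h1
    have h2 := (Prod.mk.inj (h1.1.symm.trans h1.2)).1
    exact POW_ne a b (h j - h i) hab hne (by have := hh hij; omega) h2
  obtain ⟨i, j, hij, hG⟩ := hE (fun i => a ^ h i * b ^ (K - h i)) (fun i => ⟨by positivity, Set.mem_univ _⟩) (by
      intro i j hEq
      by_contra hij
      rcases lt_or_gt_of_ne hij with h1 | h1
      · exact hneq i j h1 hEq
      · exact hneq j i h1 hEq.symm) (by
      intro i j hij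
      show rp (a ^ h i * b ^ (K - h i)) (a ^ h j * b ^ (K - h j)) ∉ E
      rcases lt_or_gt_of_ne hij with h1 | h1
      · rw [(hrp i j h1).2]
        exact (hx i j h1).2
      · rw [(hrp j i h1).1]
        exact (hx j i h1).1)
  have hG' : GoodM ε (rp (a ^ h i * b ^ (K - h i)) (a ^ h j * b ^ (K - h j))).1
    (rp (a ^ h i * b ^ (K - h i)) (a ^ h j * b ^ (K - h j))).2 := hG
  rcases lt_or_gt_of_ne hij with h1 | h1
  · rw [(hrp i j h1).2] at hG'
    exact ⟨i, j, h1, hGSY ε _ _ hG'⟩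
  · rw [(hrp j i h1).1] at hG'
    exact ⟨j, i, h1, hG'⟩

/-- a pair of coprime positive integers other than `(1, 1)` -/
def Pr (a b : ℕ) : Prop := 1 ≤ a ∧ 1 ≤ b ∧ Nat.Coprime a b ∧ ¬ (a = 1 ∧ b = 1)

theorem Pr_pow {a b m : ℕ} (h : Pr a b) (hm : 1 ≤ m) : Pr (a ^ m) (b ^ m) :=
  ⟨Nat.one_le_pow _ _ h.1, Nat.one_le_pow _ _ h.2.1, Nat.Coprime.pow m m h.2.2.1, fun h1 =>
    h.2.2.2 ⟨(Nat.pow_eq_one.mp h1.1).resolve_right (by omega), (Nat.pow_eq_one.mp h1.2).resolve_right (by omega)⟩⟩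

/-- any `n` pairs have a common good exponent -/
theorem Exp_any (ε : ℝ) (E : Finset (ℕ × ℕ)) (hE : FourM ε E Set.univ) (n : ℕ) : ∃ K : ℕ, ∀ p : Fin n → ℕ × ℕ,
    (∀ i, Pr (p i).1 (p i).2) → ∃ m : ℕ, 1 ≤ m ∧ m ≤ K ∧ ∀ i, GoodM ε ((p i).1 ^ m) ((p i).2 ^ m) := by
  classical
  obtain ⟨R, hR⟩ := Exp_ramsey (Fin n)
  obtain ⟨L, hL⟩ : ∃ L : ℕ, L = n * (R * (2 * #E)) + 1 := ⟨_, rfl⟩
  refine ⟨R * L + 1, fun p hp => ?_⟩
  by_contra hcon
  push Not at hcon
  -- a common difference without exceptional exponents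
  have hex : ∃ d ∈ Icc 1 L, ∀ i : Fin n, ∀ k ∈ Icc 1 R, ((p i).1 ^ (k * d), (p i).2 ^ (k * d)) ∉ E ∧
      ((p i).2 ^ (k * d), (p i).1 ^ (k * d)) ∉ E := by
    by_contra hcon
    push Not at hcon
    have hsub : Icc 1 L ⊆ (univ : Finset (Fin n)).biUnion (fun i => (Icc 1 R).biUnion (fun k =>
        {d ∈ Icc 1 L | ((p i).1 ^ (k * d), (p i).2 ^ (k * d)) ∈ E} ∪ {d ∈ Icc 1 L | ((p i).2 ^ (k * d), (p i).1 ^ (k * d)) ∈ E})) := by
      intro d hd
      obtain ⟨i, k, hk, hk2⟩ := hcon d hd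
      rw [mem_biUnion]
      refine ⟨i, mem_univ _, ?_⟩
      rw [mem_biUnion]
      refine ⟨k, hk, ?_⟩
      rw [mem_union, mem_filter, mem_filter]
      by_cases h1 : ((p i).1 ^ (k * d), (p i).2 ^ (k * d)) ∈ E
      · exact Or.inl ⟨hd, h1⟩
      · exact Or.inr ⟨hd, hk2 h1⟩
    have h1 := card_le_card hsub
    have h2 : #((univ : Finset (Fin n)).biUnion (fun i => (Icc 1 R).biUnion (fun k =>
        {d ∈ Icc 1 L | ((p i).1 ^ (k * d), (p i).2 ^ (k * d)) ∈ E} ∪
          {d ∈ Icc 1 L | ((p i).2 ^ (k * d), (p i).1 ^ (k * d)) ∈ E}))) ≤ n * (R * (2 * #E)) := by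
      refine card_biUnion_le.trans ?_
      have h3 : ∀ i ∈ (univ : Finset (Fin n)), #((Icc 1 R).biUnion (fun k =>
          {d ∈ Icc 1 L | ((p i).1 ^ (k * d), (p i).2 ^ (k * d)) ∈ E} ∪
            {d ∈ Icc 1 L | ((p i).2 ^ (k * d), (p i).1 ^ (k * d)) ∈ E})) ≤ R * (2 * #E) := by
        intro i _
        refine card_biUnion_le.trans ?_
        have h4 : ∀ k ∈ Icc 1 R, #({d ∈ Icc 1 L | ((p i).1 ^ (k * d), (p i).2 ^ (k * d)) ∈ E} ∪
            {d ∈ Icc 1 L | ((p i).2 ^ (k * d), (p i).1 ^ (k * d)) ∈ E}) ≤ 2 * #E := by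
          intro k hk
          have hk1 := (mem_Icc.mp hk).1
          have h5 := POW_cnt (p i).1 (p i).2 k L (hp i).1 (hp i).2.1 (hp i).2.2.2 hk1 E
          have h6 := POW_cnt (p i).2 (p i).1 k L (hp i).2.1 (hp i).1 (fun h => (hp i).2.2.2 ⟨h.2, h.1⟩) hk1 E
          have h7 := card_union_le {d ∈ Icc 1 L | ((p i).1 ^ (k * d), (p i).2 ^ (k * d)) ∈ E}
            {d ∈ Icc 1 L | ((p i).2 ^ (k * d), (p i).1 ^ (k * d)) ∈ E}
          omega
        have h5 := sum_le_sum h4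
        rw [sum_const, Nat.card_Icc, smul_eq_mul] at h5
        simpa using h5
      have h4 := sum_le_sum h3
      rw [sum_const, card_univ, Fintype.card_fin, smul_eq_mul] at h4
      exact h4
    rw [Nat.card_Icc] at h1
    omega
  obtain ⟨d, hd, hdE⟩ := hex
  have hd1 := (mem_Icc.mp hd).1
  have hd2 := (mem_Icc.mp hd).2
  -- the case n = 0
  rcases Nat.eq_zero_or_pos n with hn | hn
  · obtain ⟨i, -⟩ := hcon 1 le_rfl (by omega)
    have := i.isLt
    omega
  -- the colouring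
  have hcol : ∀ x y : ℕ, ∃ i : Fin n, x < y → y < R → ¬ GoodM ε ((p i).1 ^ ((y - x) * d)) ((p i).2 ^ ((y - x) * d)) := by
    intro x y
    by_cases hxy : x < y ∧ y < R
    · have h1 : (y - x) * d ≤ R * L + 1 := by
        have : (y - x) * d ≤ R * L := Nat.mul_le_mul (by omega) hd2
        omega
      obtain ⟨i, hi⟩ := hcon ((y - x) * d) (Nat.mul_pos (by omega) hd1) h1
      exact ⟨i, fun _ _ => hi⟩
    · exact ⟨⟨0, hn⟩, fun h1 h2 => absurd ⟨h1, h2⟩ hxy⟩
  choose χ hχ using hcol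
  obtain ⟨t, ht, htR, c, hc⟩ := hR χ
  obtain ⟨i, j, hij, hG⟩ := Exp_four GSM ε E hE (p c).1 (p c).2 (hp c).1 (hp c).2.1 (hp c).2.2.1 (hp c).2.2.2 (fun i => t i * d)
    (fun i j hij => Nat.mul_lt_mul_of_pos_right (ht hij) hd1) (by
      intro i j hij
      have h1 := ht hij
      have h2 := htR j
      rw [← Nat.sub_mul]
      exact hdE c (t j - t i) (mem_Icc.2 ⟨by omega, by omega⟩))
  have h1 := hχ (t i) (t j) (ht hij) (htR j)
  rw [hc i j hij] at h1
  simp only [← Nat.sub_mul] at hG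
  exact h1 hG

/-- one sequence of exponents for all pairs -/
theorem Exp_seq (hall : ∀ ε : ℝ, 0 < ε → ∃ E : Finset (ℕ × ℕ), FourM ε E Set.univ) : ∃ m : ℕ → ℕ, StrictMono m ∧ 1 ≤ m 0 ∧
    ∀ a b : ℕ, Pr a b → ∀ ε : ℝ, 0 < ε → ∃ j₀ : ℕ, ∀ j, j₀ ≤ j → GoodM ε (a ^ m j) (b ^ m j) := by
  classical
  obtain ⟨f, hf⟩ : ∃ f : ℕ → ℕ × ℕ, ∀ i, f i = if Pr (Nat.unpair i).1 (Nat.unpair i).2 then Nat.unpair i else (2, 1) := ⟨_, fun _ => rfl⟩
  have hfP : ∀ i, Pr (f i).1 (f i).2 := by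
    intro i
    rw [hf]
    split_ifs with h
    · exact h
    · exact ⟨by norm_num, by norm_num, by norm_num, by norm_num⟩
  have hstep : ∀ M j : ℕ, ∃ m, M < m ∧ ∀ i ≤ j, GoodM (1 / ((j : ℝ) + 1)) ((f i).1 ^ m) ((f i).2 ^ m) := by
    intro M j
    obtain ⟨E, hE⟩ := hall (1 / ((j : ℝ) + 1)) (by positivity)
    obtain ⟨K, hK⟩ := Exp_any (1 / ((j : ℝ) + 1)) E hE (j + 1)
    obtain ⟨m, hm1, -, hm⟩ := hK (fun i => ((f i).1 ^ (M + 1), (f i).2 ^ (M + 1))) (fun i => Pr_pow (hfP i) (by omega))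
    refine ⟨(M + 1) * m, by nlinarith, fun i hi => ?_⟩
    have h1 := hm ⟨i, by omega⟩
    rw [pow_mul, pow_mul]
    exact h1
  choose g hg1 hg2 using hstep
  obtain ⟨m, hm0, hms⟩ : ∃ m : ℕ → ℕ, m 0 = g 0 0 ∧ ∀ j, m (j + 1) = g (m j) (j + 1) :=
    ⟨fun j => Nat.rec (g 0 0) (fun j x => g x (j + 1)) j, rfl, fun _ => rfl⟩
  refine ⟨m, strictMono_nat_of_lt_succ fun j => by rw [hms]; exact hg1 _ _, by rw [hm0]; exact hg1 0 0, fun a b hP ε hε => ?_⟩
  obtain ⟨N, hN⟩ := exists_nat_gt (1 / ε)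
  refine ⟨max (Nat.pair a b) N, fun j hj => ?_⟩
  have h1 : ∀ i ≤ j, GoodM (1 / ((j : ℝ) + 1)) ((f i).1 ^ m j) ((f i).2 ^ m j) := by
    rcases j with _ | j
    · rw [hm0]
      exact hg2 0 0
    · rw [hms]
      exact hg2 _ _
  have h2 := h1 (Nat.pair a b) ((le_max_left _ _).trans hj)
  have h3 : f (Nat.pair a b) = (a, b) := by
    rw [hf, Nat.unpair_pair, if_pos hP]
  rw [h3] at h2
  refine GoodM_mono _ _ _ _ ?_ h2
  have h4 : (N : ℝ) ≤ j := by exact_mod_cast (le_max_right _ _).trans hj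
  rw [div_le_iff₀ (by positivity)]
  rw [div_lt_iff₀ hε] at hN
  nlinarith

open Classical in
/-- a third of all exponents of every pair -/
theorem Exp_third (ε : ℝ) (E : Finset (ℕ × ℕ)) (hE : FourM ε E Set.univ) (δ : ℝ) (hδ : 0 < δ) (a b : ℕ) (hP : Pr a b) :
    ∃ M₀ : ℕ, ∀ M : ℕ, M₀ ≤ M → ∀ u : ℕ, (1 / 3 - δ) * M ≤ (#{m ∈ Ioc u (u + M) | GoodM ε (a ^ m) (b ^ m)} : ℝ) := by
  obtain ⟨T, hT⟩ : ∃ T : ℕ → Prop, ∀ m, T m ↔ GoodM ε (a ^ m) (b ^ m) := ⟨_, fun _ => Iff.rfl⟩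
  by_contra hcon
  push Not at hcon
  -- the exceptional exponents
  have hfin : ∀ a b : ℕ, Pr a b → {m : ℕ | (a ^ m, b ^ m) ∈ E}.Finite := by
    intro a b hP
    refine Set.Finite.preimage (f := fun m : ℕ => (a ^ m, b ^ m)) ?_ E.finite_toSet
    intro m _ m' _ h
    exact POW_inj a b hP.1 hP.2.1 hP.2.2.2 _ _ (Prod.mk.inj h).1 (Prod.mk.inj h).2
  obtain ⟨x, hx⟩ : ∃ x : ℕ, ∀ m, x < m → (a ^ m, b ^ m) ∉ E ∧ (b ^ m, a ^ m) ∉ E := by
    obtain ⟨x, hx⟩ := (hfin a b hP).bddAbove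
    obtain ⟨y, hy⟩ := (hfin b a ⟨hP.2.1, hP.1, hP.2.2.1.symm, fun h => hP.2.2.2 ⟨h.2, h.1⟩⟩).bddAbove
    refine ⟨max x y, fun m hm => ⟨fun h => ?_, fun h => ?_⟩⟩
    · have h1 := hx h
      omega
    · have h1 := hy h
      omega
  have hstep : ∀ H : Finset ℕ, #H ≤ 3 → ∃ h, ∀ h' ∈ H, h' + x < h ∧ ¬ T (h - h') := by
    intro H hH
    obtain ⟨B, hB⟩ : ∃ B : ℕ, ∀ h' ∈ H, h' ≤ B := ⟨H.sup id, fun h' hh' => le_sup (f := id) hh'⟩
    obtain ⟨M₁, hM₁⟩ := exists_nat_gt ((2 * B + x + 1 : ℝ) / (3 * δ))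
    obtain ⟨M, hM, u, hu⟩ := hcon M₁
    by_contra hno
    push Not at hno
    have hsub : Ioc u (u + M) ⊆ range (B + x + 1) ∪ Ioc u (u + B) ∪
        H.biUnion (fun h' => ({m ∈ Ioc u (u + M) | GoodM ε (a ^ m) (b ^ m)} : Finset ℕ).image (fun m => m + h')) := by
      intro h hh
      rw [mem_Ioc] at hh
      rw [mem_union, mem_union, mem_range, mem_Ioc, mem_biUnion]
      obtain ⟨h', hh', h1⟩ := hno h
      have h2 := hB h' hh'
      by_cases h3 : h < B + x + 1
      · exact Or.inl (Or.inl h3)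
      · by_cases h4 : h ≤ u + B
        · exact Or.inl (Or.inr ⟨hh.1, h4⟩)
        · refine Or.inr ⟨h', hh', ?_⟩
          rw [mem_image]
          refine ⟨h - h', ?_, by omega⟩
          rw [mem_filter, mem_Ioc]
          exact ⟨⟨by omega, by omega⟩, (hT _).1 (h1 (by omega))⟩
    have h1 := card_le_card hsub
    have h2 := card_union_le (range (B + x + 1) ∪ Ioc u (u + B))
      (H.biUnion (fun h' => ({m ∈ Ioc u (u + M) | GoodM ε (a ^ m) (b ^ m)} : Finset ℕ).image (fun m => m + h')))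
    have h3 := card_union_le (range (B + x + 1)) (Ioc u (u + B))
    have h4 : #(H.biUnion (fun h' => ({m ∈ Ioc u (u + M) | GoodM ε (a ^ m) (b ^ m)} : Finset ℕ).image (fun m => m + h'))) ≤
        3 * #{m ∈ Ioc u (u + M) | GoodM ε (a ^ m) (b ^ m)} := by
      refine (card_biUnion_le.trans (sum_le_sum fun h' _ => card_image_le)).trans ?_
      rw [sum_const, smul_eq_mul]
      exact Nat.mul_le_mul_right _ hH
    rw [Nat.card_Ioc] at h1 h3
    rw [card_range] at h3
    have h5 : M ≤ 2 * B + x + 1 + 3 * #{m ∈ Ioc u (u + M) | GoodM ε (a ^ m) (b ^ m)} := by omega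
    have h6 : (M : ℝ) ≤ 2 * B + x + 1 + 3 * #{m ∈ Ioc u (u + M) | GoodM ε (a ^ m) (b ^ m)} := by exact_mod_cast h5
    have h7 : (M₁ : ℝ) ≤ M := by exact_mod_cast hM
    rw [div_lt_iff₀ (by positivity)] at hM₁
    have h8 : (M₁ : ℝ) * (3 * δ) ≤ M * (3 * δ) := mul_le_mul_of_nonneg_right h7 (by positivity)
    nlinarith
  obtain ⟨h1, hh1⟩ := hstep {0} (by simp)
  obtain ⟨h2, hh2⟩ := hstep {0, h1} ((card_le_two).trans (by norm_num))
  obtain ⟨h3, hh3⟩ := hstep {0, h1, h2} card_le_three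
  have e1 := hh1 0 (by simp)
  have e2 := hh2 0 (by simp)
  have e3 := hh2 h1 (by simp)
  have e4 := hh3 0 (by simp)
  have e5 := hh3 h1 (by simp)
  have e6 := hh3 h2 (by simp)
  have hall : ∀ i j : Fin 4, i < j → (![0, h1, h2, h3] : Fin 4 → ℕ) i + x < (![0, h1, h2, h3] : Fin 4 → ℕ) j ∧
      ¬ T ((![0, h1, h2, h3] : Fin 4 → ℕ) j - (![0, h1, h2, h3] : Fin 4 → ℕ) i) := by
    intro i j hij
    fin_cases i <;> fin_cases j <;> first
      | exact absurd hij (by decide)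
      | exact e1
      | exact e2
      | exact e3
      | exact e4
      | exact e5
      | exact e6
  obtain ⟨i, j, hij, hG⟩ := Exp_four GSM ε E hE a b hP.1 hP.2.1 hP.2.2.1 hP.2.2.2 ![0, h1, h2, h3] (by
      intro i j hij
      have := (hall i j hij).1
      omega) (by
      intro i j hij
      have := (hall i j hij).1
      exact hx _ (by omega))
  exact (hall i j hij).2 ((hT _).2 hG)

end Pool.Agent.FM
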