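import Pool.Agent.helper19.FM.Asm
import Pool.Agent.helper22.FR.ORT
import Pool.Agent.helper19.FR.SPE

/-!
# Almost all `c` for one of `(a, b)`, `(a², b²)`, `(a³, b³)`, and for two of any four integers

`c` is called true for `(a, b)` if `(a, b, c)` satisfies the conditions of Q1 and `a p - b q = c` has infinitely many solutions in primes
`p, q`. The pair `(a, b)` is called `ε`-good (`Good`) if there are a progression `r + q ℤ` and a number `K` such that for arbitrarily large
`T` there are `T` consecutive terms of the progression, the first of them `r + q u` with `|u| ≤ K T`, of which at least `(1 - ε) T` are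
true. (So in this residue class almost all `c` of some intervals of positive relative length are true.)

THEOREM. Let `0 < ε ≤ 1` and `N = 10^151 / ε^18`.
(1) For all coprime `a, b ≥ 1`, with at most `N` exceptions, at least one of the three pairs `(a, b)`, `(a², b²)`, `(a³, b³)` is `ε`-good;
and for all coprime `a, b ≥ 1` with `(a, b) ≠ (1, 1)`, with no exception, one of the pairs `(a^m, b^m)`, `1 ≤ m ≤ N`, is `ε`-good.
(2) In general there is a set of at most `N` ratios such that among any four positive integers, all of whose ratios are outside this set,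
there are two, `s` and `t`, such that `(a, b)`, `a/b = s/t` in lowest terms, is `ε`-good. (For `b³, a b², a² b, a³` this is (1).)
(3) Hence there are at most six positive integers such that for all `a, b ≥ 1` one of them, `s`, makes `(s a, b)` (in lowest terms)
`ε`-good; and three which do this for all `a, b` except for finitely many ratios `a/b`.
(4) Hence every finite set `F` of positive integers has at least `|F|²/3 - N |F|` pairs `(s, t)` whose quotient in lowest terms is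
`ε`-good; and at least a third of all coprime pairs (logarithmic density) is `ε`-good.

PROOF (`Pool/Agent/helper19/FR/Spec.lean`, `Pool/Agent/helper19/FM`). Let `F` be a finite set of positive integers. Take the linear forms
`w n + 1 + M x`, `0 ≤ x < X`, where `w` runs through a finite set which contains `w s` for almost all of its elements `w`, for all `s ∈ F`,
with `H` random values of `x` for every `w`. By the theorem on almost all tuples of linear forms (a sieve of Maynard and Tao for clusters of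
forms, proved in `Pool/Agent/helper38/AT`) with probability near to `1` more than a proportion `1/4 + 1/500000` of all these forms is prime
simultaneously for infinitely many `n`; let `J` be such a set of forms. Two forms of `J` with slopes `v s`, `v t` give a true
`c = a - b + M (a x - b x')` for the pair `(a, b)` with `a/b = t/s`; this does not depend on `v`. For every slope `w` let `K_w (x, y)` be the
correlation of the events `x ∈ J`, `y ∈ J`; its average over `w = v s` is almost the same kernel `K` for all `s ∈ F`. Let `B_r (x, x')`,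
`r = (a, b)`, be the indicator function of the false cases minus its average over progressions of difference `D = (m²)!` and of `l` terms,
`l` of order `X`. The functions `B_r`, `B_r'` for different ratios are almost orthogonal, as a shift by a multiple of `(b', a')` does not
change `a' x - b' x'`; so by Bessel's inequality for the products of the eigenfunctions of `K` with large eigenvalues at most `N` ratios
have a function `B_r` which is correlated with the sets `J` (Cauchy-Schwarz and the law of large numbers: the correlation of `B_r` with `J`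
is bounded by the form of `K`). For all other ratios which are not good the sets `J` have almost no pairs with slopes `v s`, `v t`; but this
is impossible for all six pairs of four integers, since every slope has a part of `J` of density more than `1/4`. The set of ratios can be
chosen independent of `F` (ultrafilter).
-/

set_option autoImplicit false

namespace Pool.Agent.helper19.FM.Final

open Finset

/-- The conditions of Q1 on `a, b, c`. -/
def Admissible (a b : ℕ) (c : ℤ) : Prop :=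
  0 < a ∧ 0 < b ∧ c ≠ 0 ∧ Nat.Coprime a b ∧ IsCoprime (a : ℤ) c ∧ IsCoprime (b : ℤ) c ∧
    ¬ (Odd a ∧ Odd b ∧ Odd c)

/-- `(a, b, c)` satisfies the conditions of Q1 and `a p - b q = c` has infinitely many solutions in
primes `p, q`. -/
def TrueCase (a b : ℕ) (c : ℤ) : Prop :=
  Admissible a b c ∧ {pq : ℕ × ℕ | pq.1.Prime ∧ pq.2.Prime ∧ (a : ℤ) * pq.1 - b * pq.2 = c}.Infinite

/-- There are `q, r, K` such that for arbitrarily large `T` at least `(1 - ε) T` of some `T` consecutive terms of the progression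
`r + q ℤ` are true for `(a, b)`, where the first of them is `r + q u` with `|u| ≤ K T`. -/
def Good (ε : ℝ) (a b : ℕ) : Prop :=
  ∃ q r K : ℕ, 1 ≤ q ∧ ∀ T₀ : ℕ, ∃ T : ℕ, T₀ ≤ T ∧ ∃ u : ℤ, |u| ≤ K * T ∧
    (1 - ε) * T ≤ ({t : ℕ | t < T ∧ TrueCase a b (r + q * (u + t))}.ncard : ℝ)

/-- the quotient `s/t` in lowest terms -/
def low (s t : ℕ) : ℕ × ℕ := (s / Nat.gcd s t, t / Nat.gcd s t)

/-- the pair `(a, b)` with `a/b = s/t` in lowest terms is good -/
def GoodQ (ε : ℝ) (s t : ℕ) : Prop := Good ε (low s t).1 (low s t).2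

open Classical in
/-- the sum of `1/(a b)` over the coprime `a, b ≤ N` with `P a b` -/
noncomputable def logSum (P : ℕ → ℕ → Prop) (N : ℕ) : ℝ :=
  ∑ p ∈ Icc 1 N ×ˢ Icc 1 N with Nat.Coprime p.1 p.2 ∧ P p.1 p.2, 1 / ((p.1 : ℝ) * p.2)

theorem hT : Pool.Agent.helper85.FC.TrueCase = TrueCase := by
  funext a b c
  unfold Pool.Agent.helper85.FC.TrueCase TrueCase Admissible
  simp only [and_assoc]

theorem hcard {α : Type} (s : Finset α) (P Q : α → Prop) (inst : DecidablePred Q) (h : ∀ x, P x ↔ Q x) :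
    (({x | x ∈ s ∧ P x}.ncard : ℕ) : ℝ) = ((#(@Finset.filter α Q inst s) : ℕ) : ℝ) := by
  have h1 : {x | x ∈ s ∧ P x} = ((@Finset.filter α Q inst s : Finset α) : Set α) := by
    ext x
    simp [h]
  rw [h1, Set.ncard_coe_finset]

theorem hG0 (a b q r T : ℕ) (u : ℤ) : ((Pool.Agent.OM.NR a b q T (r + q * u) : ℕ) : ℝ) =
    ({t : ℕ | t < T ∧ TrueCase a b (r + q * (u + t))}.ncard : ℝ) := by
  unfold Pool.Agent.OM.NR
  rw [hT, ← hcard _ (fun t : ℕ => TrueCase a b (r + q * u + q * ((t : ℕ) : ℤ))) _ _ fun _ => Iff.rfl]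
  have e : {t : ℕ | t < T ∧ TrueCase a b (r + q * (u + t))} =
      {x : ℕ | x ∈ range T ∧ TrueCase a b (r + q * u + q * ((x : ℕ) : ℤ))} := by
    ext t
    simp only [Set.mem_ofPred_eq, mem_range]
    rw [show (r : ℤ) + q * (u + t) = r + q * u + q * (t : ℤ) by ring]
  rw [e]

theorem hG (ε : ℝ) (a b : ℕ) : Pool.Agent.FM.GoodM ε a b ↔ Good ε a b := by
  unfold Pool.Agent.FM.GoodM Good
  simp only [hG0]

theorem hQ (ε : ℝ) (s t : ℕ) : Pool.Agent.FM.GQM ε s t ↔ GoodQ ε s t := hG ε _ _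

/-- monotonicity of counts -/
theorem hle {α : Type} (s : Finset α) (P Q : α → Prop) (inst : DecidablePred Q) (h : ∀ x ∈ s, Q x → P x) :
    ((#(@Finset.filter α Q inst s) : ℕ) : ℝ) ≤ (({x | x ∈ s ∧ P x}.ncard : ℕ) : ℝ) := by
  rw [← Set.ncard_coe_finset]
  refine Nat.cast_le.2 (Set.ncard_le_ncard ?_ (s.finite_toSet.subset fun x hx => hx.1))
  intro x hx
  rw [mem_coe, mem_filter] at hx
  exact ⟨hx.1, h x hx.1 hx.2⟩

open Classical in
theorem hlog (ε δ : ℝ) (N : ℕ) (h1 : (1 / 3 - δ) * ∑ p ∈ Icc 1 N ×ˢ Icc 1 N with Nat.Coprime p.1 p.2, 1 / ((p.1 : ℝ) * p.2) ≤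
    ∑ p ∈ Icc 1 N ×ˢ Icc 1 N with Nat.Coprime p.1 p.2 ∧ Pool.Agent.FM.GoodM ε p.1 p.2, 1 / ((p.1 : ℝ) * p.2)) :
    (1 / 3 - δ) * logSum (fun _ _ => True) N ≤ logSum (Good ε) N := by
  have e1 : logSum (fun _ _ => True) N = ∑ p ∈ Icc 1 N ×ˢ Icc 1 N with Nat.Coprime p.1 p.2, 1 / ((p.1 : ℝ) * p.2) := by
    unfold logSum
    refine Finset.sum_congr ?_ fun _ _ => rfl
    ext p
    simp only [mem_filter, and_true]
  have e2 : logSum (Good ε) N = ∑ p ∈ Icc 1 N ×ˢ Icc 1 N with Nat.Coprime p.1 p.2 ∧ Pool.Agent.FM.GoodM ε p.1 p.2,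
      1 / ((p.1 : ℝ) * p.2) := by
    unfold logSum
    refine Finset.sum_congr ?_ fun _ _ => rfl
    ext p
    simp only [mem_filter, hG]
  rw [e1, e2]
  exact h1

/-- **Almost all `c` for one of `(a, b)`, `(a², b²)`, `(a³, b³)`, and for two of any four integers.** -/
theorem result : ∀ ε : ℝ, 0 < ε → ε ≤ 1 →
    -- one of the first three powers, with at most `N` exceptions, and a power of every pair
    ((∃ E : Finset (ℕ × ℕ), (#E : ℝ) ≤ 10 ^ 151 / ε ^ 18 ∧ ∀ a b : ℕ, 1 ≤ a → 1 ≤ b → Nat.Coprime a b → (a, b) ∉ E →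
        Good ε a b ∨ Good ε (a ^ 2) (b ^ 2) ∨ Good ε (a ^ 3) (b ^ 3)) ∧
      ∀ a b : ℕ, 1 ≤ a → 1 ≤ b → Nat.Coprime a b → ¬ (a = 1 ∧ b = 1) →
        ∃ m : ℕ, 1 ≤ m ∧ (m : ℝ) ≤ 10 ^ 151 / ε ^ 18 ∧ Good ε (a ^ m) (b ^ m)) ∧
    -- four integers
    (∃ E : Finset (ℕ × ℕ), (#E : ℝ) ≤ 10 ^ 151 / ε ^ 18 ∧ ∀ s : Fin 4 → ℕ, (∀ i, 0 < s i) → Function.Injective s →
      (∀ i j, i ≠ j → low (s i) (s j) ∉ E) → ∃ i j, i ≠ j ∧ GoodQ ε (s i) (s j)) ∧
    -- six integers for all pairs, and three for all but finitely many ratios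
    ((∃ S : Finset ℕ, #S ≤ 6 ∧ (∀ s ∈ S, 0 < s) ∧ ∀ a b : ℕ, 1 ≤ a → 1 ≤ b → ∃ s ∈ S, GoodQ ε (s * a) b) ∧
      ∃ (s₁ s₂ s₃ : ℕ) (E : Finset (ℕ × ℕ)), 0 < s₁ ∧ 0 < s₂ ∧ 0 < s₃ ∧ ∀ a b : ℕ, 1 ≤ a → 1 ≤ b → low a b ∉ E →
        GoodQ ε (s₁ * a) b ∨ GoodQ ε (s₂ * a) b ∨ GoodQ ε (s₃ * a) b) ∧
    -- a third of all pairs
    (∀ F : Finset ℕ, (∀ s ∈ F, 0 < s) → 1 / 3 * (#F : ℝ) ^ 2 - 10 ^ 151 / ε ^ 18 * #F ≤
      ({p | p ∈ F ×ˢ F ∧ GoodQ ε p.1 p.2}.ncard : ℝ)) ∧
    ∀ δ : ℝ, 0 < δ → ∃ N₀ : ℕ, ∀ N : ℕ, N₀ ≤ N →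
      (1 / 3 - δ) * logSum (fun _ _ => True) N ≤ logSum (Good ε) N := by
  intro ε hε hε1
  obtain ⟨C, hC, hC2⟩ := Pool.Agent.FM.Asm_C ε hε hε1
  have hmain := Pool.Agent.FM.main Pool.Agent.FR.SPE Pool.Agent.FR.ORT ε C hε hε1 hC
  obtain ⟨E, hE, hFour⟩ := Pool.Agent.FM.GLBM ε C hmain
  have hEr : (#E : ℝ) ≤ C := by exact_mod_cast hE
  have hE0 : (0 : ℝ) ≤ #E := Nat.cast_nonneg _
  have hGLM : Pool.Agent.FM.GLM_stmt := by
    intro ε' hε'
    by_cases h1 : ε' ≤ 1
    · obtain ⟨C', hC', -⟩ := Pool.Agent.FM.Asm_C ε' hε' h1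
      obtain ⟨E', -, h2⟩ := Pool.Agent.FM.GLBM ε' C' (Pool.Agent.FM.main Pool.Agent.FR.SPE Pool.Agent.FR.ORT ε' C' hε' h1 hC')
      exact ⟨E', h2⟩
    · refine ⟨E, fun s hs hinj hrat => ?_⟩
      obtain ⟨i, j, hij, h2⟩ := hFour s hs hinj hrat
      push Not at h1
      exact ⟨i, j, hij, Pool.Agent.FM.GQMS.2.2 ε ε' _ _ (hε1.trans h1.le) h2⟩
  have hTHR := Pool.Agent.FM.THR hGLM Pool.Agent.EP.MXC Pool.Agent.FM.GQMS
  refine ⟨⟨?_, ?_⟩, ?_, ⟨?_, ?_⟩, ?_, ?_⟩
  · obtain ⟨E', hE', h⟩ := Pool.Agent.FM.TRIQ Pool.Agent.FM.GSM ε E hFour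
    refine ⟨E', ?_, fun a b ha hb hab hn => ?_⟩
    · have h1 : (#E' : ℝ) ≤ 6 * #E + 1 := by exact_mod_cast hE'
      linarith
    · have h1 := h a b ha hb hab hn
      simp only [hG] at h1
      exact h1
  · intro a b ha hb hab hne
    obtain ⟨m, hm1, hm2, h⟩ := Pool.Agent.FM.POWQ Pool.Agent.FM.GSM ε C hmain a b ha hb hab hne
    refine ⟨m, hm1, ?_, (hG _ _ _).1 h⟩
    have h1 : (m : ℝ) ≤ 3 * (6 * C + 1) := by exact_mod_cast hm2
    linarith
  · refine ⟨E, by linarith, fun s hs hinj hrat => ?_⟩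
    obtain ⟨i, j, hij, h⟩ := hFour s (fun i => ⟨hs i, Set.mem_univ _⟩) hinj hrat
    exact ⟨i, j, hij, (hQ _ _ _).1 h⟩
  · obtain ⟨S, hS6, hS0, h⟩ := Pool.Agent.FM.SIX hTHR ε hε
    refine ⟨S, hS6, hS0, fun a b ha hb => ?_⟩
    obtain ⟨u, hu, h1⟩ := h a b ha hb
    exact ⟨u, hu, (hQ _ _ _).1 h1⟩
  · obtain ⟨s₁, s₂, s₃, E', h1, h2, h3, h⟩ := hTHR ε hε
    refine ⟨s₁, s₂, s₃, E', h1, h2, h3, fun a b ha hb hn => ?_⟩
    have h4 := h a b ha hb hn
    simp only [hQ] at h4
    exact h4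
  · intro F hF
    have h1 := Pool.Agent.FM.CNTQ Pool.Agent.FM.GQMS ε E hFour F hF
    have h2 : (2 * (#E : ℝ) + 1) * #F ≤ 10 ^ 151 / ε ^ 18 * #F :=
      mul_le_mul_of_nonneg_right (by linarith) (Nat.cast_nonneg _)
    refine le_trans (by linarith) (h1.trans (hle _ _ _ _ fun p _ hp => (hQ _ _ _).1 hp))
  · intro δ hδ
    obtain ⟨N₀, h⟩ := Pool.Agent.FM.LGD hGLM Pool.Agent.FM.GQMS ε δ hε hδ
    refine ⟨N₀, fun N hN => ?_⟩
    exact hlog ε δ N (h N hN)

end Pool.Agent.helper19.FM.Final
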