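import Pool.Agent.helper19.FM.Defs

set_option autoImplicit false

namespace Pool.Agent.FM

open Finset Real Pool.Agent.AT Pool.Agent.OM Pool.Agent.helper85.FC Pool.Agent.FR

/-- the quotient is not much larger than the number -/
theorem UNM_quot (N q c u A : ℤ) (hq : 0 < q) (h : N = c + q * u) (hc0 : 0 ≤ c) (hcq : c < q) (hN : |N| ≤ q * A) : |u| ≤ A + 1 := by
  rw [abs_le] at hN ⊢
  constructor
  · by_contra hcon
    push Not at hcon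
    have h1 : u ≤ -(A + 1) - 1 := by omega
    have h2 : q * u ≤ q * (-(A + 1) - 1) := mul_le_mul_of_nonneg_left h1 hq.le
    nlinarith [hN.1, hN.2]
  · by_contra hcon
    push Not at hcon
    have h1 : A + 1 + 1 ≤ u := by omega
    have h2 : q * (A + 1 + 1) ≤ q * u := mul_le_mul_of_nonneg_left h1 hq.le
    nlinarith [hN.1, hN.2]

open Classical in
/-- if no pair of `R` is good then all averages of the false cases over `l` terms are large, near to `0` -/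
theorem UNM (ε : ℝ) (R : Finset (ℕ × ℕ)) (M D C : ℕ) (hM : 0 < M) (hD : 0 < D) (hR : ∀ r ∈ R, ¬ GoodM ε r.1 r.2) :
    ∃ l₀ : ℕ, 1 ≤ l₀ ∧ ∀ l : ℕ, l₀ ≤ l → ∀ r ∈ R, ∀ y : ℤ, |y| ≤ C * l →
      ε < mean fun k : Fin l => bad r.1 r.2 M (y + D * ((k : ℕ) : ℤ)) := by
  have hq : 1 ≤ M * D := Nat.mul_pos hM hD
  have h1 : ∀ z : (ℕ × ℕ) × ℕ, ∃ T₀ : ℕ, z.1 ∈ R → ∀ T : ℕ, T₀ ≤ T → ∀ u : ℤ, |u| ≤ ((C + 1 : ℕ) : ℤ) * T →
      (NR z.1.1 z.1.2 (M * D) T ((z.2 : ℤ) + ((M * D : ℕ) : ℤ) * u) : ℝ) < (1 - ε) * T := by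
    intro z
    by_cases hz : z.1 ∈ R
    · have h2 := hR z.1 hz
      unfold GoodM at h2
      push Not at h2
      obtain ⟨T₀, h3⟩ := h2 (M * D) z.2 (C + 1) hq
      exact ⟨T₀, fun _ T hT u hu => h3 T hT u hu⟩
    · exact ⟨0, fun h => absurd h hz⟩
  choose T₀ hN using h1
  refine ⟨1 + ∑ z ∈ R ×ˢ range (M * D), T₀ z + ∑ r ∈ R, (r.1 + r.2), by omega, ?_⟩
  intro l hl r hr y hy
  have hl1 : 1 ≤ l := by omega
  have hl0 : (0 : ℝ) < l := by exact_mod_cast hl1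
  have hrl : r.1 + r.2 + 1 ≤ l := by
    have h4 : r.1 + r.2 ≤ ∑ r ∈ R, (r.1 + r.2) := Finset.single_le_sum (f := fun r : ℕ × ℕ => r.1 + r.2) (fun _ _ => Nat.zero_le _) hr
    omega
  obtain ⟨N, hN'⟩ : ∃ N : ℤ, N = (r.1 : ℤ) - r.2 + M * y := ⟨_, rfl⟩
  have hqz : (0 : ℤ) < ((M * D : ℕ) : ℤ) := by exact_mod_cast hq
  obtain ⟨c, hc⟩ : ∃ c : ℕ, (c : ℤ) = N % ((M * D : ℕ) : ℤ) :=
    ⟨(N % ((M * D : ℕ) : ℤ)).toNat, Int.toNat_of_nonneg (Int.emod_nonneg _ hqz.ne')⟩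
  have hcq : c < M * D := by
    have := Int.emod_lt_of_pos N hqz
    rw [← hc] at this
    exact_mod_cast this
  obtain ⟨u, hu⟩ : ∃ u : ℤ, u = N / ((M * D : ℕ) : ℤ) := ⟨_, rfl⟩
  have hNe : N = c + ((M * D : ℕ) : ℤ) * u := by
    rw [hc, hu]
    exact (Int.emod_add_mul_ediv N _).symm
  -- the position
  have hub : |u| ≤ ((C + 1 : ℕ) : ℤ) * l := by
    have h5 : |N| ≤ ((M * D : ℕ) : ℤ) * ((r.1 : ℤ) + r.2 + |y|) := by
      have hMq : (M : ℤ) ≤ ((M * D : ℕ) : ℤ) := by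
        exact_mod_cast Nat.le_mul_of_pos_right M hD
      have hq1 : (1 : ℤ) ≤ ((M * D : ℕ) : ℤ) := by exact_mod_cast hq
      have h6 : |N| ≤ (r.1 : ℤ) + r.2 + M * |y| := by
        rw [hN']
        have h7 : |(r.1 : ℤ) - r.2 + M * y| ≤ |(r.1 : ℤ) - r.2| + |(M : ℤ) * y| := abs_add_le _ _
        have h8 : |(r.1 : ℤ) - r.2| ≤ (r.1 : ℤ) + r.2 := by
          rw [abs_le]
          constructor <;> linarith [(Nat.cast_nonneg r.1 : (0 : ℤ) ≤ r.1), (Nat.cast_nonneg r.2 : (0 : ℤ) ≤ r.2)]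
        have h9 : |(M : ℤ) * y| = M * |y| := by
          rw [abs_mul, Nat.abs_cast]
        linarith
      have hy0 : 0 ≤ |y| := abs_nonneg y
      have hs0 : (0 : ℤ) ≤ (r.1 : ℤ) + r.2 := by positivity
      nlinarith
    have h6 := UNM_quot N _ c u ((r.1 : ℤ) + r.2 + |y|) hqz hNe (Nat.cast_nonneg _) (by exact_mod_cast hcq) h5
    have h7 : (r.1 : ℤ) + r.2 + 1 ≤ l := by exact_mod_cast hrl
    push_cast
    linarith
  have hbad : ∀ k : ℕ, bad r.1 r.2 M (y + D * (k : ℤ)) =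
      1 - (if TrueCase r.1 r.2 ((c : ℤ) + ((M * D : ℕ) : ℤ) * u + ((M * D : ℕ) : ℤ) * (k : ℤ)) then (1 : ℝ) else 0) := by
    intro k
    unfold bad
    have h4 : (r.1 : ℤ) - r.2 + M * (y + D * (k : ℤ)) =
        (c : ℤ) + ((M * D : ℕ) : ℤ) * u + ((M * D : ℕ) : ℤ) * (k : ℤ) := by
      rw [← hNe, hN']
      push_cast
      ring
    rw [h4]
    by_cases h5 : TrueCase r.1 r.2 ((c : ℤ) + ((M * D : ℕ) : ℤ) * u + ((M * D : ℕ) : ℤ) * (k : ℤ))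
    · rw [if_pos h5, if_pos h5]; norm_num
    · rw [if_neg h5, if_neg h5]; norm_num
  have hsum : ∑ k ∈ range l, (if TrueCase r.1 r.2 ((c : ℤ) + ((M * D : ℕ) : ℤ) * u + ((M * D : ℕ) : ℤ) * (k : ℤ)) then (1 : ℝ) else 0) <
      (1 - ε) * l := by
    have hT : T₀ (r, c) ≤ l := by
      have h4 : T₀ (r, c) ≤ ∑ z ∈ R ×ˢ range (M * D), T₀ z :=
        Finset.single_le_sum (f := T₀) (fun _ _ => Nat.zero_le _) (mem_product.2 ⟨hr, mem_range.2 hcq⟩)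
      omega
    have h7 := hN (r, c) hr l hT u hub
    refine lt_of_le_of_lt (le_of_eq ?_) h7
    unfold NR
    rw [← sum_boole]
  unfold mean
  rw [Fintype.card_fin, lt_div_iff₀ hl0]
  have h9 : ∑ k : Fin l, bad r.1 r.2 M (y + D * ((k : ℕ) : ℤ)) = ∑ k ∈ range l, bad r.1 r.2 M (y + D * (k : ℤ)) :=
    Fin.sum_univ_eq_sum_range (fun k : ℕ => bad r.1 r.2 M (y + D * (k : ℤ))) l
  rw [h9, sum_congr rfl fun k _ => hbad k, sum_sub_distrib, sum_const, card_range, nsmul_eq_mul, mul_one]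
  linarith

end Pool.Agent.FM
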