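import Pool.Agent.helper19.FM.Quant
import Pool.Agent.helper99.EP.Spec

/-!
# Project FM (MP_bf63dc_nt): the statements of the consequences (as in Pool.Agent.helper19.FR.Spec, with `GoodM` for `GoodR`)
-/

set_option autoImplicit false

namespace Pool.Agent.FM

open Finset Real Pool.Agent.AT Pool.Agent.OM Pool.Agent.helper85.FC Pool.Agent.FR

/-- symmetry, scaling, monotonicity -/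
def GQMS_stmt : Prop := (∀ (ε : ℝ) (s t : ℕ), GQM ε s t → GQM ε t s) ∧
  (∀ (ε : ℝ) (c s t : ℕ), 1 ≤ c → (GQM ε (s * c) (t * c) ↔ GQM ε s t)) ∧
  ∀ (ε ε' : ℝ) (s t : ℕ), ε ≤ ε' → GQM ε s t → GQM ε' s t

def GSM_stmt : Prop := ∀ (ε : ℝ) (a b : ℕ), GoodM ε a b → GoodM ε b a

def KFM_stmt : Prop := ∀ ε : ℝ, 0 < ε → ∃ C : ℕ, ∀ F : Finset ℕ, (∀ s ∈ F, 0 < s) → ∃ E : Finset (ℕ × ℕ), #E ≤ C ∧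
  FourM ε E (F : Set ℕ)

def GLM_stmt : Prop := ∀ ε : ℝ, 0 < ε → ∃ E : Finset (ℕ × ℕ), FourM ε E Set.univ

def THM_stmt : Prop := ∀ ε : ℝ, 0 < ε → ∃ (s₁ s₂ s₃ : ℕ) (E : Finset (ℕ × ℕ)), 0 < s₁ ∧ 0 < s₂ ∧ 0 < s₃ ∧
  ∀ a b : ℕ, 1 ≤ a → 1 ≤ b → rp a b ∉ E → GQM ε (s₁ * a) b ∨ GQM ε (s₂ * a) b ∨ GQM ε (s₃ * a) b

open Classical in
def CNM_stmt : Prop := ∀ ε : ℝ, 0 < ε → ∃ C : ℝ, ∀ F : Finset ℕ, (∀ s ∈ F, 0 < s) →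
  1 / 3 * (#F : ℝ) ^ 2 - C * #F ≤ #{p ∈ F ×ˢ F | GQM ε p.1 p.2}

open Classical in
def LGM_stmt : Prop := ∀ ε δ : ℝ, 0 < ε → 0 < δ → ∃ N₀ : ℕ, ∀ N : ℕ, N₀ ≤ N →
  (1 / 3 - δ) * ∑ p ∈ Icc 1 N ×ˢ Icc 1 N with Nat.Coprime p.1 p.2, 1 / ((p.1 : ℝ) * p.2) ≤
    ∑ p ∈ Icc 1 N ×ˢ Icc 1 N with Nat.Coprime p.1 p.2 ∧ GoodM ε p.1 p.2, 1 / ((p.1 : ℝ) * p.2)

def POM_stmt : Prop := ∀ ε : ℝ, 0 < ε → ∃ K : ℕ, ∀ a b : ℕ, 1 ≤ a → 1 ≤ b → Nat.Coprime a b → ¬ (a = 1 ∧ b = 1) →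
  ∃ m : ℕ, 1 ≤ m ∧ m ≤ K ∧ GoodM ε (a ^ m) (b ^ m)

def TRM_stmt : Prop := ∀ ε : ℝ, 0 < ε → ∃ E : Finset (ℕ × ℕ), ∀ a b : ℕ, 1 ≤ a → 1 ≤ b → Nat.Coprime a b → (a, b) ∉ E →
  GoodM ε a b ∨ GoodM ε (a ^ 2) (b ^ 2) ∨ GoodM ε (a ^ 3) (b ^ 3)

end Pool.Agent.FM
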