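import Pool.Agent.helper19.FM.Stmts

/-!
# Row fr:THR (MP_bf63dc_nt, project FR): three dilations, up to finitely many ratios
-/

set_option autoImplicit false

namespace Pool.Agent.FM

open Finset Real Pool.Agent.AT Pool.Agent.OM Pool.Agent.helper85.FC Pool.Agent.FR

/-- the reduced pair does not change when both entries are multiplied by `c` -/
theorem THR_scale (s t c : ℕ) (hc : 1 ≤ c) : rp (s * c) (t * c) = rp s t := by
  unfold rp
  rw [Nat.gcd_mul_right, Nat.mul_div_mul_right _ _ hc, Nat.mul_div_mul_right _ _ hc]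

/-- equal ratios have equal reduced pairs -/
theorem THR_eq (a b u v : ℕ) (ha : 1 ≤ a) (hu : 1 ≤ u) (h : a * v = b * u) : rp a b = rp u v := by
  rw [← THR_scale a b u hu, ← THR_scale u v a ha, mul_comm u a, mul_comm v a, h]

theorem THR_swap (a b : ℕ) : rp a b = (rp b a).swap := by
  unfold rp
  rw [Nat.gcd_comm a b]
  rfl

/-- three numbers which enumerate a non-empty set with at most three elements -/
theorem THR_enum (S : Finset ℕ) (hS : S.card ≤ 3) (hne : S.Nonempty) (hpos : ∀ s ∈ S, 1 ≤ s) :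
    ∃ s₁ s₂ s₃ : ℕ, 0 < s₁ ∧ 0 < s₂ ∧ 0 < s₃ ∧ ∀ s ∈ S, s = s₁ ∨ s = s₂ ∨ s = s₃ := by
  have h1 : 1 ≤ S.card := hne.card_pos
  rcases (show S.card = 1 ∨ S.card = 2 ∨ S.card = 3 by omega) with h | h | h
  · obtain ⟨x, rfl⟩ := Finset.card_eq_one.mp h
    refine ⟨x, x, x, hpos x (by simp), hpos x (by simp), hpos x (by simp), ?_⟩
    intro s hs
    exact Or.inl (Finset.mem_singleton.mp hs)
  · obtain ⟨x, y, hxy, rfl⟩ := Finset.card_eq_two.mp h
    refine ⟨x, y, y, hpos x (by simp), hpos y (by simp), hpos y (by simp), ?_⟩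
    intro s hs
    simp only [Finset.mem_insert, Finset.mem_singleton] at hs
    tauto
  · obtain ⟨x, y, z, hxy, hxz, hyz, rfl⟩ := Finset.card_eq_three.mp h
    refine ⟨x, y, z, hpos x (by simp), hpos y (by simp), hpos z (by simp), ?_⟩
    intro s hs
    simp only [Finset.mem_insert, Finset.mem_singleton] at hs
    tauto

open Classical in
/-- **THR** -/
theorem THR (hGLB : GLM_stmt) (hMXC : Pool.Agent.EP.MXC_stmt) (hGQS : GQMS_stmt) : THM_stmt := by
  intro ε hε
  obtain ⟨E, hE⟩ := hGLB ε hε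
  obtain ⟨hsym, hsc, -⟩ := hGQS
  obtain ⟨S, hS3, hSpos, hS⟩ := hMXC 3 (fun s t => s = t ∨ rp s t ∈ E ∨ rp t s ∈ E ∨ GQM ε s t)
    (by
      intro s t h
      rcases h with h | h | h | h
      · exact Or.inl h.symm
      · exact Or.inr (Or.inr (Or.inl h))
      · exact Or.inr (Or.inl h)
      · exact Or.inr (Or.inr (Or.inr (hsym ε s t h))))
    (fun s _ => Or.inl rfl)
    (by
      intro c s t hc hs ht h
      simp only [THR_scale _ _ _ hc] at h
      rcases h with h | h | h | h
      · exact Or.inl (Nat.eq_of_mul_eq_mul_right hc h)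
      · exact Or.inr (Or.inl h)
      · exact Or.inr (Or.inr (Or.inl h))
      · exact Or.inr (Or.inr (Or.inr ((hsc ε c s t hc).mp h))))
    (by
      intro X hX hcard
      have h4 : 4 ≤ X.card := hcard
      let f : Fin 4 ↪o ℕ := X.orderEmbOfCardLe h4
      have hf : ∀ i, f i ∈ X := fun i => Finset.orderEmbOfCardLe_mem X h4 i
      by_cases hex : ∃ i j : Fin 4, i ≠ j ∧ rp (f i) (f j) ∈ E
      · obtain ⟨i, j, hij, hm⟩ := hex
        exact ⟨f i, hf i, f j, hf j, fun h => hij (f.injective h), Or.inr (Or.inl hm)⟩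
      · push Not at hex
        obtain ⟨i, j, hij, hg⟩ := hE (fun i => f i) (fun i => ⟨hX _ (hf i), Set.mem_univ _⟩) f.injective
          (fun i j hij => hex i j hij)
        exact ⟨f i, hf i, f j, hf j, fun h => hij (f.injective h), Or.inr (Or.inr (Or.inr hg))⟩)
  have hne : S.Nonempty := by
    obtain ⟨s, hs, -⟩ := hS 1 1 le_rfl le_rfl
    exact ⟨s, hs⟩
  obtain ⟨s₁, s₂, s₃, h1, h2, h3, hen⟩ := THR_enum S hS3 hne hSpos
  refine ⟨s₁, s₂, s₃, ((E ∪ E.image Prod.swap ∪ {(1, 1)}) ×ˢ S).image (fun p => rp p.1.1 (p.1.2 * p.2)), h1, h2, h3, ?_⟩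
  intro a b ha hb hab
  obtain ⟨s, hs, hR⟩ := hS a b ha hb
  have hs1 : 1 ≤ s := hSpos s hs
  have key : ∀ x y : ℕ, (x, y) ∈ (E ∪ E.image Prod.swap ∪ {(1, 1)}) → rp (s * a) b = (x, y) → False := by
    intro x y hxy hrp
    apply hab
    refine Finset.mem_image.mpr ⟨((x, y), s), Finset.mem_product.mpr ⟨hxy, hs⟩, ?_⟩
    have hsa : 1 ≤ s * a := Nat.mul_pos hs1 ha
    have hg : 0 < Nat.gcd (s * a) b := Nat.gcd_pos_of_pos_left _ hsa
    have hx : s * a / Nat.gcd (s * a) b = x := congrArg Prod.fst hrp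
    have hy : b / Nat.gcd (s * a) b = y := congrArg Prod.snd hrp
    have hx' : x * Nat.gcd (s * a) b = s * a := by rw [← hx]; exact Nat.div_mul_cancel (Nat.gcd_dvd_left _ _)
    have hy' : y * Nat.gcd (s * a) b = b := by rw [← hy]; exact Nat.div_mul_cancel (Nat.gcd_dvd_right _ _)
    have hx1 : 1 ≤ x := by
      rcases Nat.eq_zero_or_pos x with h0 | h0
      · rw [h0, zero_mul] at hx'; omega
      · exact h0
    have hcross : a * (y * s) = b * x := by
      calc a * (y * s) = y * (s * a) := by ring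
        _ = y * (x * Nat.gcd (s * a) b) := by rw [hx']
        _ = (y * Nat.gcd (s * a) b) * x := by ring
        _ = b * x := by rw [hy']
    exact (THR_eq a b x (y * s) ha hx1 hcross).symm
  have hgood : GQM ε (s * a) b := by
    rcases hR with h | h | h | h
    · exfalso
      refine key 1 1 (Finset.mem_union_right _ (Finset.mem_singleton_self _)) ?_
      have hsa : 0 < s * a := Nat.mul_pos hs1 ha
      unfold rp
      rw [← h, Nat.gcd_self, Nat.div_self hsa]
    · exfalso
      exact key _ _ (Finset.mem_union_left _ (Finset.mem_union_left _ h)) rfl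
    · exfalso
      have h' : (rp b (s * a)).swap ∈ E.image Prod.swap := Finset.mem_image_of_mem _ h
      refine key (rp (s * a) b).1 (rp (s * a) b).2 ?_ rfl
      refine Finset.mem_union_left _ (Finset.mem_union_right _ ?_)
      rw [← THR_swap] at h'
      exact h'
    · exact h
  rcases hen s hs with h | h | h
  · exact Or.inl (h ▸ hgood)
  · exact Or.inr (Or.inl (h ▸ hgood))
  · exact Or.inr (Or.inr (h ▸ hgood))

end Pool.Agent.FM
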